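import Pool.Agent.Helper97.LPP.Stat

/-! Exponential moment bounds and exit point inequalities. -/

open MeasureTheory ProbabilityTheory Finset
open scoped ENNReal

namespace Helper97.LPP

variable {Ω : Type*} [MeasurableSpace Ω] {P : Measure Ω} [IsProbabilityMeasure P]
  {X : ℕ × ℕ → Ω → ℝ}

theorem emom_shift (h : IsExpField P X) (θ : ℝ) (p : ℕ × ℕ) (m n : ℕ) :
    emom P X θ p (p.1 + m, p.2 + n) = emom P X θ (0, 0) (m, n) := by
  have h1 := h.lp_law h p (0, 0) m n
  simp only [zero_add] at h1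
  unfold emom
  have f1 : ∫⁻ ω, ENNReal.ofReal (Real.exp (θ * lp (fun w => X w ω) p
      (p.1 + m, p.2 + n))) ∂P = ∫⁻ x, ENNReal.ofReal (Real.exp (θ * x))
        ∂(P.map (fun ω => lp (fun w => X w ω) p (p.1 + m, p.2 + n))) := by
    rw [lintegral_map (by fun_prop) (IsExpField.measurable_lp h.meas _ _)]
  rw [f1, h1, lintegral_map (by fun_prop) (IsExpField.measurable_lp h.meas _ _)]

omit [IsProbabilityMeasure P] in
/-- product of two exponential moments of functions of disjoint sets of sites -/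
theorem indep_mul {Y : ℕ × ℕ → Ω → ℝ} (hm : ∀ w, Measurable (Y w)) (hi : iIndepFun Y P)
    {S T : Finset (ℕ × ℕ)} (hST : Disjoint S T) {f g : (ℕ × ℕ → ℝ) → ℝ≥0∞}
    (hf : Measurable f) (hg : Measurable g) (hfS : Local S f) (hgT : Local T g) :
    ∫⁻ ω, f (fun w => Y w ω) * g (fun w => Y w ω) ∂P =
      (∫⁻ ω, f (fun w => Y w ω) ∂P) * ∫⁻ ω, g (fun w => Y w ω) ∂P :=
  lintegral_mul_eq_lintegral_mul_lintegral_of_indepFun''
    ((hf.comp (measurable_pi_iff.2 hm)).aemeasurable)
    ((hg.comp (measurable_pi_iff.2 hm)).aemeasurable) (indep_local hm hi hST hf hg hfS hgT)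

theorem ofReal_exp_add (a b : ℝ) : ENNReal.ofReal (Real.exp (a + b)) =
    ENNReal.ofReal (Real.exp a) * ENNReal.ofReal (Real.exp b) := by
  rw [Real.exp_add, ENNReal.ofReal_mul (Real.exp_nonneg _)]

theorem exp_hC {z w : ℝ} (hz : 0 < z) (hw : 0 < w) : Real.exp (hC z w) = w / z := by
  unfold hC; rw [Real.exp_log (by positivity)]

theorem exp_hR {z w : ℝ} (hz : z < 1) (hw : w < 1) :
    Real.exp (hR z w) = (1 - z) / (1 - w) := by
  unfold hR; rw [Real.exp_log (div_pos (by linarith) (by linarith))]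

theorem exp_mix {z w : ℝ} (hz : 0 < z) (hz1 : z < 1) (hw : 0 < w) (hw1 : w < 1) (m n : ℕ) :
    Real.exp (m * hC z w + n * hR z w) = (w / z) ^ m * ((1 - z) / (1 - w)) ^ n := by
  rw [Real.exp_add, Real.exp_nat_mul, Real.exp_nat_mul, exp_hC hz hw, exp_hR hz1 hw1]

theorem mgf_upper (h : IsExpField P X) {z w : ℝ} (hz : 0 < z) (hzw : z ≤ w) (hw : w < 1)
    (p : ℕ × ℕ) (m n : ℕ) :
    emom P X (w - z) p (p.1 + m, p.2 + n) ≤
      ENNReal.ofReal (Real.exp ((m + 1) * hC z w + (n + 1) * hR z w)) := by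
  rw [emom_shift h]
  obtain ⟨P', hP', hY⟩ := exists_stat hz (by linarith : z < 1)
  set Y : ℕ × ℕ → (ℕ × ℕ → ℝ) → ℝ := fun w x => x w with hYdef
  set θ := w - z with hθ
  have hθ0 : 0 ≤ θ := by linarith
  have hw0 : 0 < w := by linarith
  have h1 := col_incr_mgf hY hz (by linarith) (s := θ) (by linarith) (m + 1) (n + 1)
  have e0 : 1 - z - θ = 1 - w := by rw [hθ]; ring
  rw [e0] at h1
  -- lower bound for the integrand
  have h2 : ∫⁻ ω, ENNReal.ofReal (Real.exp (-θ * ∑ i ∈ Ico 1 (m + 1), Y (i + 1, 0) ω)) *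
      ENNReal.ofReal (Real.exp (θ * lp (fun w => Y w ω) (1, 1) (m + 1, n + 1))) ∂P' ≤
      ENNReal.ofReal (((1 - z) / (1 - w)) ^ (n + 1)) := by
    rw [← h1]
    refine lintegral_mono fun ω => ?_
    rw [← ofReal_exp_add]
    refine ENNReal.ofReal_le_ofReal (Real.exp_le_exp.2 ?_)
    have e1 := enter_row_le (fun w => Y w ω) (k := 0) (m := m) (n := n) (by omega)
    have e2 : GG (fun w => Y w ω) (m + 1) 0 =
        Y (1, 0) ω + ∑ i ∈ Ico 1 (m + 1), Y (i + 1, 0) ω := by
      rw [GG_row, Finset.range_eq_Ico, Finset.sum_eq_sum_Ico_succ_bot (by omega)]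
    have e3 : GG (fun w => Y w ω) (m + 1) (n + 1) =
        lp (fun w => Y w ω) (0, 0) (m + 1, n + 1) - Y (0, 0) ω := rfl
    rw [e2, e3]
    simp only [zero_add, Finset.range_one, Finset.sum_singleton] at e1
    nlinarith
  have h3 := indep_mul hY.meas hY.indep (disj_row_bulk (Ico 1 (m + 1)) 0 0 (m + 1, n + 1))
    (meas_row _ (-θ)) (meas_lp_exp (1, 1) (m + 1, n + 1) θ) (local_row _ (-θ))
    (local_lp_exp (1, 1) (m + 1, n + 1) θ)
  have h4 := row_mgf hY hz (s := -θ) (by linarith) (Ico 1 (m + 1))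
  have h5 := bulk_emom hY h θ 0 0 m n
  simp only [zero_add] at h5
  have e5 : emom P' Y θ (1, 1) (1 + m, 1 + n) = ∫⁻ ω, ENNReal.ofReal
      (Real.exp (θ * lp (fun w => Y w ω) (1, 1) (m + 1, n + 1))) ∂P' := by
    unfold emom; rw [add_comm 1 m, add_comm 1 n]
  rw [e5] at h5
  rw [h3, h4, h5] at h2
  have e4 : z - -θ = w := by rw [hθ]; ring
  rw [e4, Nat.card_Ico, Nat.add_sub_cancel] at h2
  -- conclude
  have h6 : ENNReal.ofReal ((w / z) ^ m) * (ENNReal.ofReal ((z / w) ^ m) *
      emom P X θ (0, 0) (m, n)) = emom P X θ (0, 0) (m, n) := by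
    rw [← mul_assoc, ← ENNReal.ofReal_mul (by positivity), ← mul_pow,
      div_mul_div_comm, mul_comm w z, div_self (by positivity), one_pow, ENNReal.ofReal_one,
      one_mul]
  rw [← h6]
  refine (mul_le_mul_right h2 _).trans ?_
  rw [← ENNReal.ofReal_mul (by positivity)]
  refine ENNReal.ofReal_le_ofReal ?_
  have e6 := exp_mix hz (by linarith) hw0 hw (m + 1) (n + 1)
  push_cast at e6
  rw [e6]
  refine mul_le_mul_of_nonneg_right ?_ (pow_nonneg (div_nonneg (by linarith) (by linarith)) _)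
  exact pow_le_pow_right₀ ((one_le_div hz).2 hzw) (by omega)

/-- exit point inequality for exponential moments -/
theorem mgf_exit (h : IsExpField P X) {z w : ℝ} (hz : 0 < z) (hzw : z < w) (hw : w < 1)
    (m n : ℕ) :
    ENNReal.ofReal (Real.exp ((m + 1) * hC z w + (n + 1) * hR z w)) ≤
      ∑ k ∈ Finset.range (m + 1),
        ENNReal.ofReal (Real.exp ((k + 1) * hC z w)) * emom P X (w - z) (0, 0) (m - k, n) +
      ∑ k ∈ Finset.range (n + 1),
        ENNReal.ofReal (Real.exp ((k + 1) * hR z w)) * emom P X (w - z) (0, 0) (m, n - k) := by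
  obtain ⟨P', hP', hY⟩ := exists_stat hz (by linarith : z < 1)
  set Y : ℕ × ℕ → (ℕ × ℕ → ℝ) → ℝ := fun w x => x w with hYdef
  set θ := w - z with hθ
  have hθ0 : 0 ≤ θ := by linarith
  have hw0 : 0 < w := by linarith
  have h1 := col_incr_mgf hY hz (by linarith) (s := θ) (by linarith) (m + 1) (n + 1)
  have e0 : 1 - z - θ = 1 - w := by rw [hθ]; ring
  rw [e0] at h1
  -- the two families of terms
  set F : ℕ → (ℕ × ℕ → ℝ) → ℝ≥0∞ := fun k ω =>
    ENNReal.ofReal (Real.exp (-θ * ∑ i ∈ Ico (k + 1) (m + 1), Y (i + 1, 0) ω)) *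
      ENNReal.ofReal (Real.exp (θ * lp (fun w => Y w ω) (k + 1, 1) (m + 1, n + 1))) with hF
  set F' : ℕ → (ℕ × ℕ → ℝ) → ℝ≥0∞ := fun k ω =>
    ENNReal.ofReal (Real.exp (-θ * ∑ i ∈ range (m + 1), Y (i + 1, 0) ω)) *
      (ENNReal.ofReal (Real.exp (θ * ∑ i ∈ range (k + 1), Y (0, i + 1) ω)) *
      ENNReal.ofReal (Real.exp (θ * lp (fun w => Y w ω) (1, k + 1) (m + 1, n + 1)))) with hF'
  have h2 : ENNReal.ofReal (((1 - z) / (1 - w)) ^ (n + 1)) ≤
      ∑ k ∈ range (m + 1), ∫⁻ ω, F k ω ∂P' + ∑ k ∈ range (n + 1), ∫⁻ ω, F' k ω ∂P' := by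
    have mF : ∀ k, Measurable (F k) := by
      intro k
      have := meas_lp_exp (k + 1, 1) (m + 1, n + 1) θ
      simp only [hF, hYdef]
      fun_prop
    have mF' : ∀ k, Measurable (F' k) := by
      intro k
      have := meas_lp_exp (1, k + 1) (m + 1, n + 1) θ
      simp only [hF', hYdef]
      fun_prop
    rw [← h1, ← lintegral_finsetSum _ (fun k _ => mF k), ← lintegral_finsetSum _ (fun k _ => mF' k),
      ← lintegral_add_left (Finset.measurable_sum _ (fun k _ => mF k))]
    refine lintegral_mono fun ω => ?_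
    have e2 : GG (fun w => Y w ω) (m + 1) 0 = ∑ i ∈ range (m + 1), Y (i + 1, 0) ω := by
      rw [GG_row]
    have e3 : GG (fun w => Y w ω) (m + 1) (n + 1) =
        lp (fun w => Y w ω) (0, 0) (m + 1, n + 1) - Y (0, 0) ω := rfl
    rcases exit_point (fun w => Y w ω) m n with ⟨k, hk, hk'⟩ | ⟨k, hk, hk'⟩
    · refine le_trans ?_ (le_add_right (Finset.single_le_sum (f := fun k => F k ω)
        (fun _ _ => zero_le) (Finset.mem_range.2 (Nat.lt_succ_of_le hk))))
      simp only [hF]
      rw [← ofReal_exp_add]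
      refine ENNReal.ofReal_le_ofReal (Real.exp_le_exp.2 (le_of_eq ?_))
      rw [e2, e3, hk', ← Finset.sum_range_add_sum_Ico _ (by omega : k + 1 ≤ m + 1)]
      ring
    · refine le_trans ?_ (le_add_left (Finset.single_le_sum (f := fun k => F' k ω)
        (fun _ _ => zero_le) (Finset.mem_range.2 (Nat.lt_succ_of_le hk))))
      simp only [hF']
      rw [← ofReal_exp_add, ← ofReal_exp_add]
      refine ENNReal.ofReal_le_ofReal (Real.exp_le_exp.2 (le_of_eq ?_))
      rw [e2, e3, hk']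
      ring
  have e4 : z - -θ = w := by rw [hθ]; ring
  have h3 : ∀ k ∈ range (m + 1), ∫⁻ ω, F k ω ∂P' =
      ENNReal.ofReal ((z / w) ^ (m - k)) * emom P X θ (0, 0) (m - k, n) := by
    intro k hk
    rw [Finset.mem_range] at hk
    have a1 := indep_mul hY.meas hY.indep (disj_row_bulk (Ico (k + 1) (m + 1)) k 0 (m + 1, n + 1))
      (meas_row _ (-θ)) (meas_lp_exp (k + 1, 1) (m + 1, n + 1) θ) (local_row _ (-θ))
      (local_lp_exp (k + 1, 1) (m + 1, n + 1) θ)
    have a2 := row_mgf hY hz (s := -θ) (by linarith) (Ico (k + 1) (m + 1))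
    have a3 := bulk_emom hY h θ k 0 (m - k) n
    have a4 : k + 1 + (m - k) = m + 1 := by omega
    rw [a4, zero_add, add_comm 1 n] at a3
    rw [Nat.card_Ico, e4] at a2
    have a5 : m + 1 - (k + 1) = m - k := by omega
    rw [a5] at a2
    unfold emom at a3
    simp only [hF]
    rw [a1, a2, a3]
    rfl
  have h4 : ∀ k ∈ range (n + 1), ∫⁻ ω, F' k ω ∂P' =
      ENNReal.ofReal ((z / w) ^ (m + 1)) * (ENNReal.ofReal (((1 - z) / (1 - w)) ^ (k + 1)) *
        emom P X θ (0, 0) (m, n - k)) := by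
    intro k hk
    rw [Finset.mem_range] at hk
    have d1 : Disjoint (rowAx (range (m + 1)))
        (colAx (range (k + 1)) ∪ Finset.Icc (1, k + 1) (m + 1, n + 1)) := by
      rw [Finset.disjoint_union_right]
      exact ⟨disj_row_col _ _, disj_row_bulk _ 0 k _⟩
    have m1 := (meas_col (range (k + 1)) θ).mul (meas_lp_exp (1, k + 1) (m + 1, n + 1) θ)
    have l1 : Local (colAx (range (k + 1)) ∪ Finset.Icc (1, k + 1) (m + 1, n + 1))
        ((fun x : ℕ × ℕ → ℝ => ENNReal.ofReal (Real.exp (θ * ∑ i ∈ range (k + 1), x (0, i + 1)))) *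
        (fun x => ENNReal.ofReal (Real.exp (θ * lp x (1, k + 1) (m + 1, n + 1))))) := by
      intro x y hxy
      simp only [Pi.mul_apply]
      have b1 := (local_col (range (k + 1)) θ).mono Finset.subset_union_left x y hxy
      have b2 := (local_lp_exp (1, k + 1) (m + 1, n + 1) θ).mono Finset.subset_union_right x y hxy
      simp only at b1 b2
      rw [b1, b2]
    have a1 := indep_mul hY.meas hY.indep d1 (meas_row _ (-θ)) m1 (local_row _ (-θ)) l1
    have a1' := indep_mul hY.meas hY.indep (disj_col_bulk (range (k + 1)) 0 k (m + 1, n + 1))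
      (meas_col _ θ) (meas_lp_exp (1, k + 1) (m + 1, n + 1) θ) (local_col _ θ)
      (local_lp_exp (1, k + 1) (m + 1, n + 1) θ)
    have a2 := row_mgf hY hz (s := -θ) (by linarith) (range (m + 1))
    have a2' := col_mgf hY (by linarith) (s := θ) (by linarith) (range (k + 1))
    have a3 := bulk_emom hY h θ 0 k m (n - k)
    have a4 : k + 1 + (n - k) = n + 1 := by omega
    rw [a4, zero_add, add_comm 1 m] at a3
    rw [Finset.card_range, e4] at a2
    rw [Finset.card_range, e0] at a2'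
    unfold emom at a3
    simp only [hF']
    simp only [Pi.mul_apply] at a1
    rw [a1, a1', a2, a2', a3]
    rfl
  rw [Finset.sum_congr rfl h3, Finset.sum_congr rfl h4] at h2
  have h5 : ENNReal.ofReal (Real.exp ((m + 1) * hC z w + (n + 1) * hR z w)) =
      ENNReal.ofReal ((w / z) ^ (m + 1)) * ENNReal.ofReal (((1 - z) / (1 - w)) ^ (n + 1)) := by
    have e6 := exp_mix hz (by linarith) hw0 hw (m + 1) (n + 1)
    push_cast at e6
    rw [e6, ENNReal.ofReal_mul (by positivity)]
  rw [h5]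
  refine (mul_le_mul_right h2 _).trans (le_of_eq ?_)
  rw [mul_add, Finset.mul_sum, Finset.mul_sum]
  congr 1
  · refine Finset.sum_congr rfl fun k hk => ?_
    rw [Finset.mem_range] at hk
    rw [← mul_assoc, ← ENNReal.ofReal_mul (by positivity)]
    congr 2
    have e7 : Real.exp ((k + 1) * hC z w) = (w / z) ^ (k + 1) := by
      have := Real.exp_nat_mul (hC z w) (k + 1)
      push_cast at this
      rw [this, exp_hC hz hw0]
    rw [e7]
    have e8 : m + 1 = (k + 1) + (m - k) := by omega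
    rw [e8, pow_add, mul_assoc, ← mul_pow, div_mul_div_comm, mul_comm w z,
      div_self (by positivity), one_pow, mul_one]
  · refine Finset.sum_congr rfl fun k hk => ?_
    rw [← mul_assoc, ← ENNReal.ofReal_mul (by positivity), ← mul_pow, div_mul_div_comm,
      mul_comm w z, div_self (by positivity), one_pow, ENNReal.ofReal_one, one_mul]
    congr 2
    have := Real.exp_nat_mul (hR z w) (k + 1)
    push_cast at this
    rw [this, exp_hR (by linarith) hw]

end Helper97.LPP
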