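import Pool.Agent.Helper97.LPP.CondExists
import Pool.Agent.Helper36.LPP.Real4

/-! Assembly: the conditional hydrodynamic limit. -/

open MeasureTheory ProbabilityTheory Filter Topology
open scoped ENNReal

namespace Helper97.LPP

variable {Ω : Type*} [MeasurableSpace Ω] {P : Measure Ω} [IsProbabilityMeasure P]
  {X : ℕ × ℕ → Ω → ℝ}

theorem ceil_bounds {a : ℝ} (ha : 0 < a) {N : ℕ} (hN : 1 ≤ N) :
    1 ≤ ⌈a * N⌉₊ ∧ a * N - 1 ≤ ((⌈a * N⌉₊ - 1 : ℕ) : ℝ) ∧ ((⌈a * N⌉₊ - 1 : ℕ) : ℝ) < a * N := by
  have h0 : 0 < a * (N : ℝ) := by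
    have : (1 : ℝ) ≤ N := by exact_mod_cast hN
    positivity
  have h1 : 1 ≤ ⌈a * (N : ℝ)⌉₊ := Nat.one_le_iff_ne_zero.2 (Nat.ceil_pos.2 h0).ne'
  have h2 := Nat.le_ceil (a * (N : ℝ))
  have h3 := Nat.ceil_lt_add_one h0.le
  refine ⟨h1, ?_, ?_⟩
  · rw [Nat.cast_sub h1]; push_cast; linarith
  · rw [Nat.cast_sub h1]; push_cast; linarith

theorem pt_bounds {a b : ℝ} (ha : 0 < a) (hb : 0 < b) {N : ℕ} (hN : 1 ≤ N) :
    a * N - 1 ≤ ((pt a b N).1 : ℝ) ∧ ((pt a b N).1 : ℝ) < a * N ∧
      b * N - 1 ≤ ((pt a b N).2 : ℝ) ∧ ((pt a b N).2 : ℝ) < b * N :=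
  ⟨(ceil_bounds ha hN).2.1, (ceil_bounds ha hN).2.2, (ceil_bounds hb hN).2.1,
    (ceil_bounds hb hN).2.2⟩

theorem eventually_lin {c : ℝ} (hc : 0 < c) (C : ℝ) : ∀ᶠ N : ℕ in atTop, C ≤ c * N := by
  have : Tendsto (fun N : ℕ => c * (N : ℝ)) atTop atTop :=
    tendsto_natCast_atTop_atTop.const_mul_atTop hc
  exact this.eventually_ge_atTop C

/-- the upper event from two optimal paths -/
theorem pair_negl (h : IsExpField P X) {a b l u v : ℝ} (ha : 0 < a) (hb : 0 < b)
    (hl : shp a b < l) (hu : 0 < u) (hv : 0 < v) {ε : ℝ} (hε : 0 < ε) :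
    Negl P X a b l (fun N => {ω | (hh a b l u v + ε) * N <
      lp (fun w => X w ω) (0, 0) (pt (a * u) (b * v) N)}) := by
  obtain ⟨θ₁, θ₂, c, h1, h2, h3, h4, h5⟩ := upper_pair h ha hb hl hu hv hε
  refine negl_of_exp h ha hb hl h4 ?_
  filter_upwards [h5] with N hN
  refine le_trans ?_ hN
  have hm1 := IsExpField.measurable_lp h.meas (0, 0) (pt a b N)
  have hm2 := IsExpField.measurable_lp h.meas (0, 0) (pt (a * u) (b * v) N)
  rw [← lintegral_const_mul _ (by fun_prop)]
  unfold cmass
  set S := {ω | lpm (fun w => X w ω) (pt a b N) < l * N} ∩ {ω | (hh a b l u v + ε) * N <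
      lp (fun w => X w ω) (0, 0) (pt (a * u) (b * v) N)} with hS
  have hSm : MeasurableSet S :=
    (measurableSet_lt (lpm_measurable h.meas _) measurable_const).inter
      (measurableSet_lt measurable_const hm2)
  rw [← lintegral_indicator hSm]
  apply lintegral_mono_ae
  filter_upwards [h.ae_pos] with ω hω
  by_cases hmem : ω ∈ S
  · rw [Set.indicator_of_mem hmem, ← ofReal_exp_add]
    apply ENNReal.ofReal_le_ofReal
    apply Real.exp_le_exp.2
    obtain ⟨g1, g2⟩ := hmem
    simp only [Set.mem_ofPred_eq] at g1 g2
    have g3 : lpm (fun w => X w ω) (pt a b N) ≤ lp (fun w => X w ω) (0, 0) (pt a b N) := by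
      unfold lpm; have := hω (pt a b N); linarith
    have g4 : (1 - θ₁) * (lpm (fun w => X w ω) (pt a b N) - l * N) ≤ 0 :=
      mul_nonpos_of_nonneg_of_nonpos (by linarith) (by linarith)
    have g5 : 0 ≤ θ₂ * (lp (fun w => X w ω) (0, 0) (pt (a * u) (b * v) N) -
      (hh a b l u v + ε) * N) := mul_nonneg h3.le (by linarith)
    nlinarith
  · rw [Set.indicator_of_notMem hmem]; exact zero_le

theorem local_tail (p q : ℕ × ℕ) (hpq : p ≤ q) : Local ((Finset.Icc p q).erase p)
    (fun x => lp x p q - x p) := by
  have e : (fun x : ℕ × ℕ → ℝ => lp x p q - x p) =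
      fun x => lp (Function.update x p 0) p q := by
    funext x
    rw [lp_update_first x hpq]; ring
  rw [e]
  exact local_lp_update _ _ _ _

theorem local_lpm (p : ℕ × ℕ) : Local ((Finset.Icc (0, 0) p).erase p)
    (fun x => lpm x p) := by
  have e : (fun x : ℕ × ℕ → ℝ => lpm x p) =
      fun x => lp (Function.update x p 0) (0, 0) p := by
    funext x
    rw [lp_update_last x (origin_le p)]; unfold lpm; ring
  rw [e]
  exact local_lp_update _ _ _ _

theorem forced_upper_negl (h : IsExpField P X) {a b l u v : ℝ} (ha : 0 < a) (hb : 0 < b)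
    (hl : shp a b < l) (hu : 0 < u) (hv : 0 < v) {ε : ℝ} (hε : 0 < ε) :
    Negl P X a b l (fun N => {ω | (hh a b l u v + ε) * N <
      forced (fun w => X w ω) (pt a b N) (pt (a * u) (b * v) N) (l * N)}) := by
  have hpair := pair_negl h ha hb hl hu hv hε
  by_cases huv : 1 ≤ u ∧ 1 ≤ v
  · obtain ⟨hu1, hv1⟩ := huv
    have hle : ∀ N : ℕ, pt a b N ≤ pt (a * u) (b * v) N := by
      intro N
      have e1 : a * (N : ℝ) ≤ a * u * N := by
        have : a ≤ a * u := by nlinarith
        gcongr
      have e2 : b * (N : ℝ) ≤ b * v * N := by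
        have : b ≤ b * v := by nlinarith
        gcongr
      exact ⟨Nat.sub_le_sub_right (Nat.ceil_le_ceil e1) 1,
        Nat.sub_le_sub_right (Nat.ceil_le_ceil e2) 1⟩
    have hA : Negl P X a b l (fun N => {ω | (hh a b l u v + ε - l) * N <
        lp (fun w => X w ω) (pt a b N) (pt (a * u) (b * v) N) - X (pt a b N) ω}) := by
      refine negl_of_indep (G := fun N ω => lp (fun w => X w ω) (pt a b N)
        (pt (a * u) (b * v) N) - X (pt a b N) ω) (c := fun N => (hh a b l u v + ε - l) * N)
        h.meas (fun N => (IsExpField.measurable_lp h.meas _ _).sub (h.meas _))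
        (Eventually.of_forall fun N => ?_) ?_
      · refine indep_local h.meas h.indep (S := (Finset.Icc (0, 0) (pt a b N)).erase (pt a b N))
          (T := (Finset.Icc (pt a b N) (pt (a * u) (b * v) N)).erase (pt a b N)) ?_
          (f := fun x => lpm x (pt a b N))
          (g := fun x => lp x (pt a b N) (pt (a * u) (b * v) N) - x (pt a b N)) ?_ ?_
          (local_lpm _) (local_tail _ _ (hle N))
        · rw [Finset.disjoint_left]
          intro w hw1 hw2
          rw [Finset.mem_erase, Finset.mem_Icc] at hw1 hw2
          exact hw1.1 (le_antisymm hw1.2.2 hw2.2.1)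
        · unfold lpm; exact (lp_measurable _ _).sub (measurable_pi_apply _)
        · exact (lp_measurable _ _).sub (measurable_pi_apply _)
      · obtain ⟨y, hy, hy1, hy2⟩ := hh_upper ha hb hl hu hv (half_pos hε)
        have hy3 := hy2 1 (by simp)
        have hup := upper_lln h (a := a * (u - 1)) (b := b * (v - 1)) hy hy1
          (p := fun N => pt a b N)
          (m := fun N => (pt (a * u) (b * v) N).1 - (pt a b N).1)
          (n := fun N => (pt (a * u) (b * v) N).2 - (pt a b N).2) (C := 1) (ε := ε / 2)
          ?_ ?_ (by linarith)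
        · refine tendsto_of_tendsto_of_tendsto_of_le_of_le tendsto_const_nhds hup
            (fun _ => zero_le) ?_
          intro N
          apply measure_mono_ae
          filter_upwards [h.ae_pos] with ω hω g1
          have g2 : (hh a b l u v + ε - l) * N <
            lp (fun w => X w ω) (pt a b N) (pt (a * u) (b * v) N) - X (pt a b N) ω := g1
          show (a * (u - 1) / y + b * (v - 1) / (1 - y) + ε / 2) * N ≤
            lp (fun w => X w ω) (pt a b N)
              ((pt a b N).1 + ((pt (a * u) (b * v) N).1 - (pt a b N).1),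
               (pt a b N).2 + ((pt (a * u) (b * v) N).2 - (pt a b N).2))
          rw [Nat.add_sub_cancel' (hle N).1, Nat.add_sub_cancel' (hle N).2]
          have g3 := hω (pt a b N)
          have g4 : (a * (u - 1) / y + b * (v - 1) / (1 - y) + ε / 2) * N ≤
              (hh a b l u v + ε - l) * N := by
            apply mul_le_mul_of_nonneg_right _ (Nat.cast_nonneg N)
            have g5 : a * (u - 1) / y = (u - 1) * (a / y) := by ring
            have g6 : b * (v - 1) / (1 - y) = (v - 1) * (b / (1 - y)) := by ring
            rw [g5, g6]; linarith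
          linarith
        · filter_upwards [eventually_ge_atTop 1] with N hN
          have f1 := pt_bounds ha hb hN
          have f2 := pt_bounds (mul_pos ha hu) (mul_pos hb hv) hN
          rw [Nat.cast_sub (hle N).1]
          nlinarith
        · filter_upwards [eventually_ge_atTop 1] with N hN
          have f1 := pt_bounds ha hb hN
          have f2 := pt_bounds (mul_pos ha hu) (mul_pos hb hv) hN
          rw [Nat.cast_sub (hle N).2]
          nlinarith
    refine (hA.union hpair).mono (Eventually.of_forall fun N => Eventually.of_forall fun ω => ?_)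
    intro _ g1
    rcases forced_gt g1 with g2 | g2
    · left
      show (hh a b l u v + ε - l) * N <
        lp (fun w => X w ω) (pt a b N) (pt (a * u) (b * v) N) - X (pt a b N) ω
      have := g2.2
      nlinarith
    · right; exact g2
  · refine hpair.mono ?_
    have hn : ∀ᶠ N : ℕ in atTop, ¬ pt a b N ≤ pt (a * u) (b * v) N := by
      rw [not_and_or, not_le, not_le] at huv
      rcases huv with h1 | h1
      · filter_upwards [eventually_lin (show 0 < a * (1 - u) by nlinarith) 1,
          eventually_ge_atTop 1] with N g1 g2 g3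
        have f1 := pt_bounds ha hb g2
        have f2 := pt_bounds (mul_pos ha hu) (mul_pos hb hv) g2
        have f3 : ((pt a b N).1 : ℝ) ≤ (pt (a * u) (b * v) N).1 := by exact_mod_cast g3.1
        nlinarith
      · filter_upwards [eventually_lin (show 0 < b * (1 - v) by nlinarith) 1,
          eventually_ge_atTop 1] with N g1 g2 g3
        have f1 := pt_bounds ha hb g2
        have f2 := pt_bounds (mul_pos ha hu) (mul_pos hb hv) g2
        have f3 : ((pt a b N).2 : ℝ) ≤ (pt (a * u) (b * v) N).2 := by exact_mod_cast g3.2
        nlinarith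
    filter_upwards [hn] with N hN
    refine Eventually.of_forall fun ω _ g1 => ?_
    rcases forced_gt g1 with g2 | g2
    · exact absurd g2.1 hN
    · exact g2

theorem forced_lower_negl (h : IsExpField P X) {a b l u v : ℝ} (ha : 0 < a) (hb : 0 < b)
    (hl : shp a b < l) (hu : 0 < u) (hv : 0 < v) {ε : ℝ} (hε : 0 < ε) :
    Negl P X a b l (fun N => {ω |
      forced (fun w => X w ω) (pt a b N) (pt (a * u) (b * v) N) (l * N) <
        (hh a b l u v - ε) * N}) := by
  by_cases h1 : (u, v) ∈ Om1 a b l
  · -- the region `Ω₁`
    have hu1 : 1 < u := h1.1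
    have hv1 : 1 < v := h1.2.1
    have hhe : hh a b l u v = l + shp (a * (u - 1)) (b * (v - 1)) := by
      unfold hh; rw [if_pos h1]; congr 2 <;> ring
    have hls := lower_super h (a := a * (u - 1)) (b := b * (v - 1))
      (mul_pos ha (by linarith)) (mul_pos hb (by linarith))
      (p := fun N => ((pt a b N).1 + 1, (pt a b N).2)) (q := fun N => pt (a * u) (b * v) N)
      (C := 3) ?_ ?_ hε
    · refine (negl_of_super h ha hb hl hls).mono ?_
      filter_upwards [eventually_lin (show 0 < a * (u - 1) by nlinarith) 3,
          eventually_lin (show 0 < b * (v - 1) by nlinarith) 3, eventually_ge_atTop 1]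
        with N g1 g2 g3
      refine Eventually.of_forall fun ω _ g4 => ?_
      have f1 := pt_bounds ha hb g3
      have f2 := pt_bounds (mul_pos ha hu) (mul_pos hb hv) g3
      have f3 : (pt a b N).1 + 1 ≤ (pt (a * u) (b * v) N).1 := by
        have : (((pt a b N).1 + 1 : ℕ) : ℝ) ≤ ((pt (a * u) (b * v) N).1 : ℕ) := by
          push_cast; nlinarith
        exact_mod_cast this
      have f4 : (pt a b N).2 ≤ (pt (a * u) (b * v) N).2 := by
        have : (((pt a b N).2 : ℕ) : ℝ) ≤ ((pt (a * u) (b * v) N).2 : ℕ) := by
          nlinarith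
        exact_mod_cast this
      have f5 := forced_ge (fun w => X w ω) (p₁ := pt a b N) (p₂ := pt (a * u) (b * v) N)
        ⟨(Nat.le_succ _).trans f3, f4⟩ (l * N)
      have f6 := lp_right_le (fun w => X w ω) (p := pt a b N) (q := pt (a * u) (b * v) N)
        (i := (pt a b N).1) (k := (pt a b N).2) le_rfl ⟨f3, f4⟩
      have f7 : lp (fun w => X w ω) (pt a b N) ((pt a b N).1, (pt a b N).2) = X (pt a b N) ω :=
        lp_self _ _
      rw [f7] at f6
      have g5 : forced (fun w => X w ω) (pt a b N) (pt (a * u) (b * v) N) (l * N) <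
        (hh a b l u v - ε) * N := g4
      show lp (fun w => X w ω) ((pt a b N).1 + 1, (pt a b N).2) (pt (a * u) (b * v) N) ≤
        (shp (a * (u - 1)) (b * (v - 1)) - ε) * N
      rw [hhe] at g5
      nlinarith
    · filter_upwards [eventually_ge_atTop 1] with N hN
      have f1 := pt_bounds ha hb hN
      have f2 := pt_bounds (mul_pos ha hu) (mul_pos hb hv) hN
      push_cast
      nlinarith
    · filter_upwards [eventually_ge_atTop 1] with N hN
      have f1 := pt_bounds ha hb hN
      have f2 := pt_bounds (mul_pos ha hu) (mul_pos hb hv) hN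
      nlinarith
  · by_cases h2 : (u, v) ∈ Om2 a b l
    · -- the middle region
      obtain ⟨r, hr, hr1, hru, hrv, hrh⟩ := hh_lower_mid ha hb hl hu hv h1 h2
        (ε := ε / 4) (by linarith)
      obtain ⟨c, hc, hex⟩ := exit_bound h ha hb hl hr hr1 (ε := ε / 4) (by linarith)
      have hE1 : Negl P X a b l (fun N => {ω | lp (fun w => X w ω) (0, 0)
          (pt (a * r) (b * r) N) ≤ (r * l - ε / 4) * N}) := by
        refine negl_of_exp h ha hb hl hc ?_
        filter_upwards [hex] with N hN
        unfold cmass
        exact hN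
      have hls := lower_super_zero h (a := a * (u - r)) (b := b * (v - r))
        (mul_pos ha (by linarith)) (mul_pos hb (by linarith))
        (p := fun N => ((pt (a * r) (b * r) N).1 + 1, (pt (a * r) (b * r) N).2))
        (q := fun N => pt (a * u) (b * v) N) (p' := fun N => pt a b N)
        (C := 3) ?_ ?_ ?_ (half_pos hε)
      · have hE2 := negl_of_super h ha hb hl hls
        refine (hE1.union hE2).mono ?_
        filter_upwards [eventually_lin (show 0 < a * (u - r) by nlinarith) 3,
            eventually_lin (show 0 < b * (v - r) by nlinarith) 3,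
            eventually_lin (show 0 < a * (1 - r) by nlinarith) 3, eventually_ge_atTop 1]
          with N g1 g2 g6 g3
        refine Eventually.of_forall fun ω g7 g4 => ?_
        have f0 := pt_bounds ha hb g3
        have f1 := pt_bounds (mul_pos ha hr) (mul_pos hb hr) g3
        have f2 := pt_bounds (mul_pos ha hu) (mul_pos hb hv) g3
        have f3 : (pt (a * r) (b * r) N).1 + 1 ≤ (pt (a * u) (b * v) N).1 := by
          have : (((pt (a * r) (b * r) N).1 + 1 : ℕ) : ℝ) ≤ ((pt (a * u) (b * v) N).1 : ℕ) := by
            push_cast; nlinarith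
          exact_mod_cast this
        have f4 : (pt (a * r) (b * r) N).2 ≤ (pt (a * u) (b * v) N).2 := by
          have : (((pt (a * r) (b * r) N).2 : ℕ) : ℝ) ≤ ((pt (a * u) (b * v) N).2 : ℕ) := by
            nlinarith
          exact_mod_cast this
        have f5 : (pt (a * r) (b * r) N).1 < (pt a b N).1 := by
          have : (((pt (a * r) (b * r) N).1 : ℕ) : ℝ) < ((pt a b N).1 : ℕ) := by nlinarith
          exact_mod_cast this
        have f6 := forced_ge_zero (x := fun w => X w ω) (p₁ := pt a b N)
          (p₂ := pt (a * u) (b * v) N) g7.le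
        have f7 := lp_right_le (Function.update (fun w => X w ω) (pt a b N) 0) (p := (0, 0))
          (q := pt (a * u) (b * v) N) (i := (pt (a * r) (b * r) N).1)
          (k := (pt (a * r) (b * r) N).2) (origin_le _) ⟨f3, f4⟩
        have f8 : lp (Function.update (fun w => X w ω) (pt a b N) 0) (0, 0)
            ((pt (a * r) (b * r) N).1, (pt (a * r) (b * r) N).2) =
            lp (fun w => X w ω) (0, 0) (pt (a * r) (b * r) N) := by
          apply lp_congr
          intro w _ hw
          rw [Function.update_of_ne]
          rintro rfl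
          have := hw.1
          simp only at this
          omega
        rw [f8] at f7
        have g5 : forced (fun w => X w ω) (pt a b N) (pt (a * u) (b * v) N) (l * N) <
          (hh a b l u v - ε) * N := g4
        by_contra hcon
        rw [Set.mem_union, not_or] at hcon
        obtain ⟨k1, k2⟩ := hcon
        simp only [Set.mem_ofPred_eq, not_le] at k1 k2
        have k3 : (hh a b l u v - ε) * N ≤
            (r * l - ε / 4) * N + (shp (a * (u - r)) (b * (v - r)) - ε / 2) * N := by
          rw [← add_mul]
          apply mul_le_mul_of_nonneg_right _ (Nat.cast_nonneg N)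
          linarith
        linarith
      · filter_upwards [eventually_lin (show 0 < a * (u - r) by nlinarith) 3,
            eventually_lin (show 0 < b * (v - r) by nlinarith) 3, eventually_ge_atTop 1]
          with N g1 g2 g3
        have f1 := pt_bounds (mul_pos ha hr) (mul_pos hb hr) g3
        have f2 := pt_bounds (mul_pos ha hu) (mul_pos hb hv) g3
        constructor
        · have : (((pt (a * r) (b * r) N).1 + 1 : ℕ) : ℝ) ≤ ((pt (a * u) (b * v) N).1 : ℕ) := by
            push_cast; nlinarith
          exact_mod_cast this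
        · have : (((pt (a * r) (b * r) N).2 : ℕ) : ℝ) ≤ ((pt (a * u) (b * v) N).2 : ℕ) := by
            nlinarith
          exact_mod_cast this
      · filter_upwards [eventually_ge_atTop 1] with N hN
        have f1 := pt_bounds (mul_pos ha hr) (mul_pos hb hr) hN
        have f2 := pt_bounds (mul_pos ha hu) (mul_pos hb hv) hN
        push_cast
        nlinarith
      · filter_upwards [eventually_ge_atTop 1] with N hN
        have f1 := pt_bounds (mul_pos ha hr) (mul_pos hb hr) hN
        have f2 := pt_bounds (mul_pos ha hu) (mul_pos hb hv) hN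
        nlinarith
    · -- outside `Ω₂`
      have hhe : hh a b l u v = shp (a * u) (b * v) := by
        unfold hh; rw [if_neg h1, if_neg h2]
      have hls := lower_super_zero h (a := a * u) (b := b * v) (mul_pos ha hu) (mul_pos hb hv)
        (p := fun _ => (0, 0)) (q := fun N => pt (a * u) (b * v) N) (p' := fun N => pt a b N)
        (C := 1) (Eventually.of_forall fun _ => origin_le _) ?_ ?_ hε
      · refine (negl_of_super h ha hb hl hls).mono ?_
        refine Eventually.of_forall fun N => Eventually.of_forall fun ω g7 g4 => ?_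
        have f6 := forced_ge_zero (x := fun w => X w ω) (p₁ := pt a b N)
          (p₂ := pt (a * u) (b * v) N) g7.le
        have g5 : forced (fun w => X w ω) (pt a b N) (pt (a * u) (b * v) N) (l * N) <
          (hh a b l u v - ε) * N := g4
        show lp (Function.update (fun w => X w ω) (pt a b N) 0) (0, 0)
          (pt (a * u) (b * v) N) ≤ (shp (a * u) (b * v) - ε) * N
        rw [hhe] at g5
        linarith
      · filter_upwards [eventually_ge_atTop 1] with N hN
        have f2 := pt_bounds (mul_pos ha hu) (mul_pos hb hv) hN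
        simp only [Nat.cast_zero]
        linarith
      · filter_upwards [eventually_ge_atTop 1] with N hN
        have f2 := pt_bounds (mul_pos ha hu) (mul_pos hb hv) hN
        simp only [Nat.cast_zero]
        linarith

end Helper97.LPP
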