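import Pool.Agent.Helper97.LPP.Rec
import Pool.Agent.Helper19.LPP.Flip

/-! The stationary last passage percolation model: the increments along a column. -/

open MeasureTheory ProbabilityTheory Finset
open scoped ENNReal

namespace Helper97.LPP

variable {Ω : Type*} [MeasurableSpace Ω] {P : Measure Ω}

/-- weights of the stationary model: exponential with parameter `z` on the horizontal axis,
`1 - z` on the vertical axis and `1` in the bulk -/
structure IsStatField (P : Measure Ω) (Y : ℕ × ℕ → Ω → ℝ) (z : ℝ) : Prop where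
  meas : ∀ w, Measurable (Y w)
  indep : iIndepFun Y P
  law_h : ∀ i, P.map (Y (i + 1, 0)) = expMeasure z
  law_v : ∀ j, P.map (Y (0, j + 1)) = expMeasure (1 - z)
  law_b : ∀ i j, P.map (Y (i + 1, j + 1)) = expMeasure 1

/-- passage times of the stationary model (the weight of the origin is removed) -/
noncomputable def GG (y : ℕ × ℕ → ℝ) (i j : ℕ) : ℝ := lp y (0, 0) (i, j) - y (0, 0)

theorem GG_rec (y : ℕ × ℕ → ℝ) (i j : ℕ) :
    GG y (i + 1) (j + 1) = y (i + 1, j + 1) + max (GG y i (j + 1)) (GG y (i + 1) j) := by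
  unfold GG
  rw [lp_rec, max_sub_sub_right]; ring

theorem GG_row (y : ℕ × ℕ → ℝ) (i : ℕ) : GG y i 0 = ∑ k ∈ range i, y (k + 1, 0) := by
  unfold GG; rw [lp_row_sum]; ring

theorem GG_col (y : ℕ × ℕ → ℝ) (j : ℕ) : GG y 0 j = ∑ k ∈ range j, y (0, k + 1) := by
  unfold GG; rw [lp_col_sum]; ring

/-- one step of the transformation of the field -/
theorem stat_flip [IsProbabilityMeasure P] {Y : ℕ × ℕ → Ω → ℝ} {z : ℝ} (hz : 0 < z) (hz1 : z < 1)
    (h : IsStatField P Y z) (i j : ℕ) :
    ∃ Z : ℕ × ℕ → Ω → ℝ, IsStatField P Z z ∧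
      (∀ ω, Z (i + 1, 0) ω = Y (i + 1, j + 1) ω + max (Y (i + 1, 0) ω - Y (0, j + 1) ω) 0) ∧
      (∀ ω, Z (0, j + 1) ω = Y (i + 1, j + 1) ω + max (Y (0, j + 1) ω - Y (i + 1, 0) ω) 0) ∧
      (∀ w, w ≠ (i + 1, 0) → w ≠ (0, j + 1) → w ≠ (i + 1, j + 1) → Z w = Y w) := by
  classical
  set Z : ℕ × ℕ → Ω → ℝ := fun w =>
    if w = (i + 1, 0) then
      fun ω => Y (i + 1, j + 1) ω + max (Y (i + 1, 0) ω - Y (0, j + 1) ω) 0
    else if w = (0, j + 1) then
      fun ω => Y (i + 1, j + 1) ω + max (Y (0, j + 1) ω - Y (i + 1, 0) ω) 0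
    else if w = (i + 1, j + 1) then fun ω => min (Y (i + 1, 0) ω) (Y (0, j + 1) ω)
    else Y w with hZ
  have e1 : Z (i + 1, 0) = fun ω => Y (i + 1, j + 1) ω +
      max (Y (i + 1, 0) ω - Y (0, j + 1) ω) 0 := by simp [hZ]
  have e2 : Z (0, j + 1) = fun ω => Y (i + 1, j + 1) ω +
      max (Y (0, j + 1) ω - Y (i + 1, 0) ω) 0 := by simp [hZ]
  have e3 : Z (i + 1, j + 1) = fun ω => min (Y (i + 1, 0) ω) (Y (0, j + 1) ω) := by simp [hZ]
  have e4 : ∀ w, w ≠ (i + 1, 0) → w ≠ (0, j + 1) → w ≠ (i + 1, j + 1) → Z w = Y w := by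
    intro w h1 h2 h3
    simp [hZ, h1, h2, h3]
  obtain ⟨f1, f2, f3, f4⟩ := flip_indep (Y' := Z) h.meas h.indep (α := (i + 1, 0))
    (β := (0, j + 1)) (γ := (i + 1, j + 1)) (by simp) (by simp) (by simp) hz hz1 (h.law_h i)
    (h.law_v j) (h.law_b i j) (fun ω => by rw [e1]) (fun ω => by rw [e2]) (fun ω => by rw [e3]) e4
  have m1 := h.meas (i + 1, 0)
  have m2 := h.meas (0, j + 1)
  have m3 := h.meas (i + 1, j + 1)
  refine ⟨Z, ⟨?_, f1, ?_, ?_, ?_⟩, fun ω => by rw [e1], fun ω => by rw [e2], e4⟩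
  · intro w
    by_cases h1 : w = (i + 1, 0)
    · rw [h1, e1]; fun_prop
    by_cases h2 : w = (0, j + 1)
    · rw [h2, e2]; fun_prop
    by_cases h3 : w = (i + 1, j + 1)
    · rw [h3, e3]; fun_prop
    rw [e4 w h1 h2 h3]; exact h.meas w
  · intro i'
    by_cases h1 : i' = i
    · subst h1; exact f2
    · rw [e4 _ (by simpa using h1) (by simp) (by simp)]; exact h.law_h i'
  · intro j'
    by_cases h1 : j' = j
    · subst h1; exact f3
    · rw [e4 _ (by simp) (by simpa using h1) (by simp)]; exact h.law_v j'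
  · intro i' j'
    by_cases h1 : i' = i ∧ j' = j
    · obtain ⟨rfl, rfl⟩ := h1; exact f4
    · rw [e4 _ (by simp) (by simp) (by simpa using h1)]; exact h.law_b i' j'

theorem burke_aux [IsProbabilityMeasure P] {Y : ℕ × ℕ → Ω → ℝ} {z : ℝ} (hz : 0 < z) (hz1 : z < 1)
    (h : IsStatField P Y z) (n i : ℕ) :
    ∃ Z : ℕ × ℕ → Ω → ℝ, IsStatField P Z z ∧
      (∀ j < n, ∀ ω, Z (0, j + 1) ω =
        GG (fun w => Y w ω) i (j + 1) - GG (fun w => Y w ω) i j) ∧
      (∀ i' j', i < i' → Z (i', j') = Y (i', j')) := by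
  induction i with
  | zero =>
      refine ⟨Y, h, ?_, fun _ _ _ => rfl⟩
      intro j _ ω
      rw [GG_col, GG_col, Finset.sum_range_succ]; ring
  | succ i ih =>
      obtain ⟨Z₀, hZ₀, hv₀, hr₀⟩ := ih
      have inner : ∀ j, j ≤ n → ∃ Z : ℕ × ℕ → Ω → ℝ, IsStatField P Z z ∧
          (∀ j' < j, ∀ ω, Z (0, j' + 1) ω =
            GG (fun w => Y w ω) (i + 1) (j' + 1) - GG (fun w => Y w ω) (i + 1) j') ∧
          (∀ j', j ≤ j' → j' < n → ∀ ω, Z (0, j' + 1) ω =
            GG (fun w => Y w ω) i (j' + 1) - GG (fun w => Y w ω) i j') ∧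
          (∀ ω, Z (i + 1, 0) ω =
            GG (fun w => Y w ω) (i + 1) j - GG (fun w => Y w ω) i j) ∧
          (∀ j', j ≤ j' → Z (i + 1, j' + 1) = Y (i + 1, j' + 1)) ∧
          (∀ i' j', i + 1 < i' → Z (i', j') = Y (i', j')) := by
        intro j
        induction j with
        | zero =>
            intro _
            refine ⟨Z₀, hZ₀, by simp, fun j' _ hj' ω => hv₀ j' hj' ω, ?_, ?_, ?_⟩
            · intro ω
              rw [hr₀ _ _ (Nat.lt_succ_self i), GG_row, GG_row, Finset.sum_range_succ]; ring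
            · intro j' _; exact hr₀ _ _ (Nat.lt_succ_self i)
            · intro i' j' hi'; exact hr₀ _ _ (by omega)
        | succ j ihj =>
            intro hj
            obtain ⟨Z₁, hZ₁, hv₁, hw₁, hh₁, hb₁, hr₁⟩ := ihj (by omega)
            obtain ⟨Z, hZ, h1, h2, h4⟩ := stat_flip hz hz1 hZ₁ i j
            have hI : ∀ ω, Z₁ (i + 1, 0) ω - Z₁ (0, j + 1) ω =
                GG (fun w => Y w ω) (i + 1) j - GG (fun w => Y w ω) i (j + 1) := by
              intro ω
              rw [hh₁, hw₁ j le_rfl (by omega)]; ring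
            have key : ∀ ω, GG (fun w => Y w ω) (i + 1) (j + 1) =
                Y (i + 1, j + 1) ω + max (GG (fun w => Y w ω) i (j + 1))
                  (GG (fun w => Y w ω) (i + 1) j) := fun ω => GG_rec _ _ _
            refine ⟨Z, hZ, ?_, ?_, ?_, ?_, ?_⟩
            · intro j' hj' ω
              rcases Nat.lt_succ_iff_lt_or_eq.1 hj' with hj'' | rfl
              · rw [h4 _ (by simp) (by simp; omega) (by simp)]
                exact hv₁ j' hj'' ω
              · rw [h2, hb₁ j' le_rfl, key]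
                have hI' : Z₁ (0, j' + 1) ω - Z₁ (i + 1, 0) ω =
                  GG (fun w => Y w ω) i (j' + 1) - GG (fun w => Y w ω) (i + 1) j' := by
                  have := hI ω; linarith
                rw [hI']
                rcases le_total (GG (fun w => Y w ω) i (j' + 1))
                  (GG (fun w => Y w ω) (i + 1) j') with hle | hle
                · rw [max_eq_right hle, max_eq_right (by linarith)]; ring
                · rw [max_eq_left hle, max_eq_left (by linarith)]; ring
            · intro j' hj' hj'' ω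
              rw [h4 _ (by simp) (by simp; omega) (by simp)]
              exact hw₁ j' (by omega) hj'' ω
            · intro ω
              rw [h1, hb₁ j le_rfl, key, hI]
              rcases le_total (GG (fun w => Y w ω) i (j + 1))
                  (GG (fun w => Y w ω) (i + 1) j) with hle | hle
              · rw [max_eq_right hle, max_eq_left (by linarith)]; ring
              · rw [max_eq_left hle, max_eq_right (by linarith)]; ring
            · intro j' hj'
              rw [h4 _ (by simp) (by simp) (by simp; omega)]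
              exact hb₁ j' (by omega)
            · intro i' j' hi'
              rw [h4 _ (by simp; omega) (by simp; omega) (by simp; omega)]
              exact hr₁ i' j' hi'
      obtain ⟨Z, hZ, hv, -, -, -, hr⟩ := inner n le_rfl
      exact ⟨Z, hZ, hv, hr⟩

/-- **Burke property**: the increments of the stationary passage times along a column are
independent exponential variables of parameter `1 - z`. -/
theorem burke [IsProbabilityMeasure P] {Y : ℕ × ℕ → Ω → ℝ} {z : ℝ} (hz : 0 < z) (hz1 : z < 1)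
    (h : IsStatField P Y z) (m : ℕ) :
    iIndepFun (fun (j : ℕ) ω => GG (fun w => Y w ω) m (j + 1) - GG (fun w => Y w ω) m j) P ∧
      ∀ j, P.map (fun ω => GG (fun w => Y w ω) m (j + 1) - GG (fun w => Y w ω) m j) =
        expMeasure (1 - z) := by
  constructor
  · rw [iIndepFun_iff_finset]
    intro s
    obtain ⟨Z, hZ, hv, -⟩ := burke_aux hz hz1 h (s.sup id + 1) m
    have h1 : iIndepFun (fun j : s => Z (0, (j : ℕ) + 1)) P := by
      have := hZ.indep.precomp (g := fun j : s => ((0, (j : ℕ) + 1) : ℕ × ℕ)) (by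
        intro a b hab
        simpa using hab)
      exact this
    have h2 : (fun j : s => Z (0, (j : ℕ) + 1)) = s.restrict
        (fun (j : ℕ) ω => GG (fun w => Y w ω) m (j + 1) - GG (fun w => Y w ω) m j) := by
      funext j ω
      exact hv j (Nat.lt_succ_of_le (Finset.le_sup (f := id) j.2)) ω
    rw [← h2]; exact h1
  · intro j
    obtain ⟨Z, hZ, hv, -⟩ := burke_aux hz hz1 h (j + 1) m
    rw [← hZ.law_v j]
    congr 1
    funext ω
    exact (hv j (Nat.lt_succ_self j) ω).symm

end Helper97.LPP
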