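import Pool.Agent.Helper97.LPP.Forced
import Pool.Agent.Helper97.LPP.Mgf
import Pool.Agent.Helper64.LPP.Superexp
import Pool.Agent.Helper71.LPP.Cond
import Pool.Agent.Helper38.LPP.WeakLLN

/-! Tails of the passage times of general rectangles. -/

open MeasureTheory ProbabilityTheory Filter Topology
open scoped ENNReal

namespace Helper97.LPP

variable {Ω : Type*} [MeasurableSpace Ω] {P : Measure Ω} [IsProbabilityMeasure P]
  {X : ℕ × ℕ → Ω → ℝ}

theorem shp_mul {a b t : ℝ} (ht : 0 ≤ t) : shp (t * a) (t * b) = t * shp a b := by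
  unfold shp
  rw [Real.sqrt_mul ht, Real.sqrt_mul ht, ← mul_add, mul_pow, Real.sq_sqrt ht]

theorem shp_pos {a b : ℝ} (ha : 0 < a) : 0 < shp a b := by
  unfold shp
  have := Real.sqrt_pos.2 ha
  have := Real.sqrt_nonneg b
  positivity

theorem prob_lp_law (h : IsExpField P X) (p : ℕ × ℕ) (m n : ℕ) {S : Set ℝ}
    (hS : MeasurableSet S) :
    P {ω | lp (fun w => X w ω) p (p.1 + m, p.2 + n) ∈ S} =
      P {ω | lp (fun w => X w ω) (0, 0) (m, n) ∈ S} := by
  have h1 := h.lp_law h p (0, 0) m n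
  simp only [zero_add] at h1
  have h2 := congrArg (fun μ : Measure ℝ => μ S) h1
  rw [Measure.map_apply (IsExpField.measurable_lp h.meas _ _) hS,
    Measure.map_apply (IsExpField.measurable_lp h.meas _ _) hS] at h2
  exact h2

/-- superexponential lower tail of the passage times of large rectangles -/
theorem lower_super (h : IsExpField P X) {a b : ℝ} (ha : 0 < a) (hb : 0 < b)
    {p q : ℕ → ℕ × ℕ} {C : ℝ} (h1 : ∀ᶠ N : ℕ in atTop, ((p N).1 : ℝ) + a * N ≤ (q N).1 + C)
    (h2 : ∀ᶠ N : ℕ in atTop, ((p N).2 : ℝ) + b * N ≤ (q N).2 + C) {ε : ℝ} (hε : 0 < ε) (K : ℝ) :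
    ∀ᶠ N : ℕ in atTop, P {ω | lp (fun w => X w ω) (p N) (q N) ≤ (shp a b - ε) * N} ≤
      ENNReal.ofReal (Real.exp (-(K * N))) := by
  have hs := shp_pos (b := b) ha
  obtain ⟨κ, hκ, hκ1, hκ2⟩ : ∃ κ : ℝ, 0 < κ ∧ κ < 1 ∧ κ * shp a b ≤ ε / 2 := by
    refine ⟨min (1 / 2) (ε / 2 / shp a b), by positivity, ?_, ?_⟩
    · exact (min_le_left _ _).trans_lt (by norm_num)
    · calc min (1 / 2) (ε / 2 / shp a b) * shp a b ≤ (ε / 2 / shp a b) * shp a b := by
            gcongr; exact min_le_right _ _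
        _ = ε / 2 := by field_simp
  have hk0 : 0 < 1 - κ := by linarith
  have ha' : 0 < (1 - κ) * a := by positivity
  have hb' : 0 < (1 - κ) * b := by positivity
  have h3 := superexp h ha' hb' (g := shp ((1 - κ) * a) ((1 - κ) * b))
    (fun ε hε => weak_lln h ha' hb' hε) (ε := ε / 2) (K := K) (by linarith)
  have h4 : ∀ᶠ N : ℕ in atTop, C ≤ κ * a * N := by
    have : Tendsto (fun N : ℕ => κ * a * (N : ℝ)) atTop atTop :=
      tendsto_natCast_atTop_atTop.const_mul_atTop (by positivity)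
    exact this.eventually_ge_atTop C
  have h5 : ∀ᶠ N : ℕ in atTop, C ≤ κ * b * N := by
    have : Tendsto (fun N : ℕ => κ * b * (N : ℝ)) atTop atTop :=
      tendsto_natCast_atTop_atTop.const_mul_atTop (by positivity)
    exact this.eventually_ge_atTop C
  filter_upwards [h1, h2, h3, h4, h5] with N g1 g2 g3 g4 g5
  refine le_trans ?_ g3
  set m := ⌈(1 - κ) * a * N⌉₊ - 1 with hm
  set n := ⌈(1 - κ) * b * N⌉₊ - 1 with hn
  have em : (m : ℝ) ≤ (1 - κ) * a * N := by
    rcases Nat.eq_zero_or_pos ⌈(1 - κ) * a * (N : ℝ)⌉₊ with h0 | h0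
    · rw [hm, h0]; simp; positivity
    · have h6 : ((⌈(1 - κ) * a * (N : ℝ)⌉₊ : ℕ) : ℝ) < (1 - κ) * a * N + 1 :=
        Nat.ceil_lt_add_one (by positivity)
      rw [hm, Nat.cast_sub h0]
      push_cast; linarith
  have en : (n : ℝ) ≤ (1 - κ) * b * N := by
    rcases Nat.eq_zero_or_pos ⌈(1 - κ) * b * (N : ℝ)⌉₊ with h0 | h0
    · rw [hn, h0]; simp; positivity
    · have h6 : ((⌈(1 - κ) * b * (N : ℝ)⌉₊ : ℕ) : ℝ) < (1 - κ) * b * N + 1 :=
        Nat.ceil_lt_add_one (by positivity)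
      rw [hn, Nat.cast_sub h0]
      push_cast; linarith
  have e1 : (p N).1 + m ≤ (q N).1 := by
    have : (((p N).1 + m : ℕ) : ℝ) ≤ ((q N).1 : ℕ) := by push_cast; nlinarith
    exact_mod_cast this
  have e2 : (p N).2 + n ≤ (q N).2 := by
    have : (((p N).2 + n : ℕ) : ℝ) ≤ ((q N).2 : ℕ) := by push_cast; nlinarith
    exact_mod_cast this
  have e3 := prob_lp_law h (p N) m n (S := Set.Iic ((shp a b - ε) * N)) measurableSet_Iic
  simp only [Set.mem_Iic] at e3
  calc P {ω | lp (fun w => X w ω) (p N) (q N) ≤ (shp a b - ε) * N}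
      ≤ P {ω | lp (fun w => X w ω) (p N) ((p N).1 + m, (p N).2 + n) ≤ (shp a b - ε) * N} := by
        apply measure_mono_ae
        filter_upwards [h.ae_pos] with ω hω h6
        exact (lp_mono_rect (fun w => (hω w).le) le_rfl
          (show p N ≤ ((p N).1 + m, (p N).2 + n) from ⟨Nat.le_add_right _ _, Nat.le_add_right _ _⟩)
          (show ((p N).1 + m, (p N).2 + n) ≤ q N from ⟨e1, e2⟩)).trans h6
    _ = P {ω | lp (fun w => X w ω) (0, 0) (m, n) ≤ (shp a b - ε) * N} := e3
    _ ≤ P {ω | lp (fun w => X w ω) (0, 0) (pt ((1 - κ) * a) ((1 - κ) * b) N) ≤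
          (shp ((1 - κ) * a) ((1 - κ) * b) - ε / 2) * N} := by
        apply measure_mono
        intro ω hω
        have hω' : lp (fun w => X w ω) (0, 0) (m, n) ≤ (shp a b - ε) * N := hω
        refine le_trans hω' ?_
        apply mul_le_mul_of_nonneg_right _ (Nat.cast_nonneg N)
        rw [shp_mul hk0.le]
        linarith

theorem update_measurable (p : ℕ × ℕ) (c : ℝ) :
    Measurable (fun x : ℕ × ℕ → ℝ => Function.update x p c) := by
  rw [measurable_pi_iff]
  intro w
  by_cases hw : w = p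
  · subst hw; simp only [Function.update_self]; exact measurable_const
  · simp only [Function.update_of_ne hw]; exact measurable_pi_apply w

theorem local_lp_update (p q p' : ℕ × ℕ) (c : ℝ) : Local ((Finset.Icc p q).erase p')
    (fun x => lp (Function.update x p' c) p q) := by
  intro x y hxy
  apply lp_congr
  intro w h1 h2
  by_cases hw : w = p'
  · subst hw; simp
  · rw [Function.update_of_ne hw, Function.update_of_ne hw]
    exact hxy w (Finset.mem_erase.2 ⟨hw, Finset.mem_Icc.2 ⟨h1, h2⟩⟩)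

omit [IsProbabilityMeasure P] in
theorem prob_le_one_ge (h : IsExpField P X) (p : ℕ × ℕ) : 1 / 2 ≤ P {ω | X p ω ≤ 1} := by
  have h1 : P {ω | X p ω ≤ 1} = expMeasure 1 (Set.Iic 1) := by
    rw [← h.law p, Measure.map_apply (h.meas p) measurableSet_Iic]; rfl
  rw [h1]
  have h2 : expMeasure 1 (Set.Ioo 0 1) ≤ expMeasure 1 (Set.Iic 1) :=
    measure_mono fun x hx => hx.2.le
  refine le_trans ?_ h2
  rw [h71_expMeasure_Ioo le_rfl zero_le_one]
  have h3 : Real.exp (-1) ≤ 1 / 2 := by
    rw [Real.exp_neg]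
    have := Real.exp_one_gt_d9
    rw [inv_le_comm₀ (Real.exp_pos _) (by norm_num)]
    norm_num; linarith
  have h4 : (1 / 2 : ℝ≥0∞) = ENNReal.ofReal (1 / 2) := by
    rw [ENNReal.ofReal_div_of_pos two_pos]; simp
  rw [h4]
  apply ENNReal.ofReal_le_ofReal
  simp only [neg_zero, Real.exp_zero]
  linarith

/-- the same with one weight replaced by zero -/
theorem lower_super_zero (h : IsExpField P X) {a b : ℝ} (ha : 0 < a) (hb : 0 < b)
    {p q p' : ℕ → ℕ × ℕ} {C : ℝ} (hpq : ∀ᶠ N : ℕ in atTop, p N ≤ q N)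
    (h1 : ∀ᶠ N : ℕ in atTop, ((p N).1 : ℝ) + a * N ≤ (q N).1 + C)
    (h2 : ∀ᶠ N : ℕ in atTop, ((p N).2 : ℝ) + b * N ≤ (q N).2 + C) {ε : ℝ} (hε : 0 < ε) (K : ℝ) :
    ∀ᶠ N : ℕ in atTop, P {ω | lp (Function.update (fun w => X w ω) (p' N) 0) (p N) (q N) ≤
        (shp a b - ε) * N} ≤ ENNReal.ofReal (Real.exp (-(K * N))) := by
  have h3 := lower_super h ha hb h1 h2 (half_pos hε) (K + 1)
  have h4 : ∀ᶠ N : ℕ in atTop, 1 ≤ ε / 2 * N := by
    have : Tendsto (fun N : ℕ => ε / 2 * (N : ℝ)) atTop atTop :=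
      tendsto_natCast_atTop_atTop.const_mul_atTop (by positivity)
    exact this.eventually_ge_atTop 1
  filter_upwards [h3, h4, hpq, eventually_ge_atTop 1] with N g3 g4 g5 g6
  have hind := indep_local h.meas h.indep (S := (Finset.Icc (p N) (q N)).erase (p' N))
    (T := {p' N}) (by simp) (f := fun x => lp (Function.update x (p' N) 0) (p N) (q N))
    (g := fun x => x (p' N)) ((lp_measurable _ _).comp (update_measurable _ _))
    (measurable_pi_apply _) (local_lp_update _ _ _ _)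
    (by intro x y hxy; exact hxy _ (by simp))
  have e1 := hind.measure_inter_preimage_eq_mul (Set.Iic ((shp a b - ε) * N)) (Set.Iic 1)
    measurableSet_Iic measurableSet_Iic
  have e2 : P {ω | lp (Function.update (fun w => X w ω) (p' N) 0) (p N) (q N) ≤
        (shp a b - ε) * N} * (1 / 2) ≤ ENNReal.ofReal (Real.exp (-((K + 1) * N))) := by
    calc P {ω | lp (Function.update (fun w => X w ω) (p' N) 0) (p N) (q N) ≤
        (shp a b - ε) * N} * (1 / 2)
        ≤ P {ω | lp (Function.update (fun w => X w ω) (p' N) 0) (p N) (q N) ≤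
        (shp a b - ε) * N} * P {ω | X (p' N) ω ≤ 1} := by
          gcongr; exact prob_le_one_ge h _
      _ = P ((fun ω => lp (Function.update (fun w => X w ω) (p' N) 0) (p N) (q N)) ⁻¹'
            Set.Iic ((shp a b - ε) * N) ∩ (fun ω => X (p' N) ω) ⁻¹' Set.Iic 1) := e1.symm
      _ ≤ P {ω | lp (fun w => X w ω) (p N) (q N) ≤ (shp a b - ε / 2) * N} := by
          apply measure_mono_ae
          filter_upwards [h.ae_pos] with ω hω h6
          obtain ⟨h7, h8⟩ := h6
          have h9 := lp_le_update_zero (fun w => X w ω) (p' := p' N) g5 (hω _).le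
          simp only [Set.mem_preimage, Set.mem_Iic] at h7 h8
          show lp (fun w => X w ω) (p N) (q N) ≤ (shp a b - ε / 2) * N
          nlinarith
      _ ≤ _ := g3
  have e3 : ENNReal.ofReal (Real.exp (-((K + 1) * N))) * 2 ≤
      ENNReal.ofReal (Real.exp (-(K * N))) := by
    have : (2 : ℝ≥0∞) = ENNReal.ofReal 2 := by simp
    rw [this, ← ENNReal.ofReal_mul (Real.exp_nonneg _)]
    apply ENNReal.ofReal_le_ofReal
    have h7 : (2 : ℝ) ≤ Real.exp N := by
      have := Real.add_one_le_exp (N : ℝ)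
      have h8 : (1 : ℝ) ≤ N := by exact_mod_cast g6
      linarith
    calc Real.exp (-((K + 1) * N)) * 2 ≤ Real.exp (-((K + 1) * N)) * Real.exp N := by gcongr
      _ = Real.exp (-(K * N)) := by rw [← Real.exp_add]; congr 1; ring
  refine le_trans ?_ ((mul_le_mul_left e2 2).trans e3)
  rw [mul_assoc]
  have : (1 / 2 : ℝ≥0∞) * 2 = 1 := by
    rw [one_div]; exact ENNReal.inv_mul_cancel two_ne_zero (by simp)
  rw [this, mul_one]

theorem hC_le {y t : ℝ} (hy : 0 < y) (ht : 0 < t) : hC y (y + t) ≤ t / y := by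
  unfold hC
  have h1 := Real.log_le_sub_one_of_pos (x := (y + t) / y) (by positivity)
  have h2 : (y + t) / y - 1 = t / y := by field_simp; ring
  linarith

theorem hR_le {y t : ℝ} (ht : 0 < t) (hyt : y + t < 1) :
    hR y (y + t) ≤ t / (1 - y - t) := by
  unfold hR
  have h0 : 0 < 1 - (y + t) := by linarith
  have h1 := Real.log_le_sub_one_of_pos (x := (1 - y) / (1 - (y + t)))
    (div_pos (by linarith) h0)
  have h3 : (1 - y - t) ≠ 0 := by linarith
  have h2 : (1 - y) / (1 - (y + t)) - 1 = t / (1 - y - t) := by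
    have : 1 - (y + t) = 1 - y - t := by ring
    rw [this]; field_simp; ring
  linarith

/-- upper tail of passage times of rectangles at the level given by any `y` -/
theorem upper_lln (h : IsExpField P X) {a b y : ℝ} (hy : 0 < y)
    (hy1 : y < 1) {p : ℕ → ℕ × ℕ} {m n : ℕ → ℕ} {C : ℝ} (h1 : ∀ᶠ N in atTop, (m N : ℝ) ≤ a * N + C)
    (h2 : ∀ᶠ N in atTop, (n N : ℝ) ≤ b * N + C) {ε : ℝ} (hε : 0 < ε) :
    Tendsto (fun N : ℕ => P {ω | (a / y + b / (1 - y) + ε) * N ≤
      lp (fun w => X w ω) (p N) ((p N).1 + m N, (p N).2 + n N)}) atTop (𝓝 0) := by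
  obtain ⟨t, ht, hyt, hbt⟩ : ∃ t : ℝ, 0 < t ∧ y + t < 1 ∧
      b / (1 - y - t) ≤ b / (1 - y) + ε / 2 := by
    have hc : ContinuousAt (fun t : ℝ => b / (1 - y - t)) 0 := by
      apply ContinuousAt.div continuousAt_const (by fun_prop)
      simp; linarith
    have h3 : ∀ᶠ t in 𝓝 (0 : ℝ), b / (1 - y - t) < b / (1 - y) + ε / 2 := by
      apply hc.eventually_lt_const
      simp; linarith
    have h4 : ∀ᶠ t in 𝓝 (0 : ℝ), t < 1 - y := eventually_lt_nhds (by linarith)
    have h5 : ∀ᶠ t in 𝓝[>] (0 : ℝ), 0 < t := eventually_mem_nhdsWithin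
    obtain ⟨t, g1, g2, g3⟩ := ((h3.filter_mono nhdsWithin_le_nhds).and
      ((h4.filter_mono nhdsWithin_le_nhds).and h5)).exists
    exact ⟨t, g3, by linarith, g1.le⟩
  have hyt' : 0 < 1 - y - t := by linarith
  set C' : ℝ := (|C| + 1) * (t / y) + (|C| + 1) * (t / (1 - y - t)) with hC'
  have h6 : Tendsto (fun N : ℕ => ENNReal.ofReal (Real.exp (C' - t * (ε / 2) * N))) atTop
      (𝓝 0) := by
    rw [← ENNReal.ofReal_zero]
    apply ENNReal.tendsto_ofReal
    refine Real.tendsto_exp_atBot.comp ?_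
    apply tendsto_atBot_add_const_left
    rw [tendsto_neg_atBot_iff]
    exact tendsto_natCast_atTop_atTop.const_mul_atTop (by positivity)
  refine tendsto_of_tendsto_of_tendsto_of_le_of_le' tendsto_const_nhds h6
    (Eventually.of_forall fun _ => zero_le) ?_
  filter_upwards [h1, h2] with N g1 g2
  have e1 := markov_upper (P := P) (IsExpField.measurable_lp h.meas (p N)
    ((p N).1 + m N, (p N).2 + n N)) ht.le ((a / y + b / (1 - y) + ε) * N)
  have e2 := mgf_upper h hy (by linarith : y ≤ y + t) hyt (p N) (m N) (n N)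
  unfold emom at e2
  rw [add_sub_cancel_left] at e2
  refine e1.trans ((mul_le_mul_right e2 _).trans ?_)
  rw [← ofReal_exp_add]
  apply ENNReal.ofReal_le_ofReal
  apply Real.exp_le_exp.2
  have f1 := hC_le hy ht
  have f2 := hR_le ht hyt
  have f3 : 0 < t / y := by positivity
  have f4 : 0 < t / (1 - y - t) := by positivity
  have f5 : ((m N : ℝ) + 1) * hC y (y + t) ≤ (a * N + (|C| + 1)) * (t / y) := by
    calc ((m N : ℝ) + 1) * hC y (y + t) ≤ ((m N : ℝ) + 1) * (t / y) := by gcongr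
      _ ≤ _ := by
        apply mul_le_mul_of_nonneg_right _ f3.le
        have := le_abs_self C
        linarith
  have f6 : ((n N : ℝ) + 1) * hR y (y + t) ≤ (b * N + (|C| + 1)) * (t / (1 - y - t)) := by
    calc ((n N : ℝ) + 1) * hR y (y + t) ≤ ((n N : ℝ) + 1) * (t / (1 - y - t)) := by gcongr
      _ ≤ _ := by
        apply mul_le_mul_of_nonneg_right _ f4.le
        have := le_abs_self C
        linarith
  have f7 : a * N * (t / y) = t * (a / y) * N := by ring
  have f8 : b * N * (t / (1 - y - t)) = t * (b / (1 - y - t)) * N := by ring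
  have f9 : t * (b / (1 - y - t)) * N ≤ t * (b / (1 - y) + ε / 2) * N := by gcongr
  rw [hC']
  nlinarith
  
end Helper97.LPP
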