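import Pool.Agent.Helper97.LPP.Neg
import Pool.Agent.Helper97.LPP.Tails

/-! Existence and value of the conditional probabilities. -/

open MeasureTheory ProbabilityTheory Filter Topology
open scoped ENNReal

namespace Helper97.LPP

variable {Ω : Type*} [MeasurableSpace Ω] {P : Measure Ω} {X : ℕ × ℕ → Ω → ℝ}

/-- nonempty sums of the weights have no atoms -/
theorem sum_no_atom (h : IsExpField P X) {A : Finset (ℕ × ℕ)} (hA : A.Nonempty) (c : ℝ) :
    P {ω | ∑ w ∈ A, X w ω = c} = 0 := by
  obtain ⟨w₀, hw₀⟩ := hA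
  have hind := indep_local h.meas h.indep (S := {w₀}) (T := A.erase w₀) (by simp)
    (f := fun x => x w₀) (g := fun x => ∑ w ∈ A.erase w₀, x w) (measurable_pi_apply _)
    (by fun_prop) (by intro x y hxy; exact hxy _ (by simp))
    (by intro x y hxy; exact Finset.sum_congr rfl hxy)
  have hm2 : Measurable (fun ω => ∑ w ∈ A.erase w₀, X w ω) := by
    have := h.meas
    fun_prop
  have : IsProbabilityMeasure P := by
    have h1 := h.law (0, 0)
    have : IsProbabilityMeasure (expMeasure 1) := isProbabilityMeasure_expMeasure one_pos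
    refine ⟨?_⟩
    rw [← Set.preimage_univ (f := X (0, 0)), ← Measure.map_apply (h.meas _) MeasurableSet.univ, h1]
    exact measure_univ
  have hmap := (indepFun_iff_map_prod_eq_prod_map_map (h.meas w₀).aemeasurable
    hm2.aemeasurable).1 hind
  have e1 : {ω | ∑ w ∈ A, X w ω = c} =
      (fun ω => (X w₀ ω, ∑ w ∈ A.erase w₀, X w ω)) ⁻¹' {z | z.1 + z.2 = c} := by
    ext ω
    simp only [Set.mem_ofPred_eq, Set.mem_preimage]
    rw [Finset.add_sum_erase _ (fun w => X w ω) hw₀]
  have hS : MeasurableSet {z : ℝ × ℝ | z.1 + z.2 = c} :=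
    measurableSet_eq_fun (by fun_prop) (by fun_prop)
  rw [e1, ← Measure.map_apply ((h.meas w₀).prodMk hm2) hS, hmap, Measure.prod_apply_symm hS]
  rw [lintegral_eq_zero_iff (measurable_measure_prodMk_right hS)]
  refine Eventually.of_forall fun y => ?_
  have e2 : (fun x : ℝ => (x, y)) ⁻¹' {z : ℝ × ℝ | z.1 + z.2 = c} = {c - y} := by
    ext x
    simp only [Set.mem_preimage, Set.mem_ofPred_eq, Set.mem_singleton_iff]
    constructor <;> intro hh <;> linarith
  simp only [e2, Pi.zero_apply]
  rw [h.law w₀]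
  exact expMeasure_singleton 1 _

theorem ae_sum_ne (h : IsExpField P X) (c : ℝ) :
    ∀ᵐ ω ∂P, ∀ A : Finset (ℕ × ℕ), A.Nonempty → ∑ w ∈ A, X w ω ≠ c := by
  rw [ae_all_iff]
  intro A
  by_cases hA : A.Nonempty
  · have := sum_no_atom h hA c
    rw [← compl_mem_ae_iff] at this
    filter_upwards [this] with ω hω _
    exact hω
  · exact Eventually.of_forall fun ω hh => absurd hh hA

theorem lpm_sum (x : ℕ × ℕ → ℝ) (p : ℕ × ℕ) : ∃ A : Finset (ℕ × ℕ), lpm x p = ∑ w ∈ A, x w := by
  obtain ⟨π, h1, h2⟩ := exists_lp x (origin_le p)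
  refine ⟨π.erase p, ?_⟩
  unfold lpm
  rw [h2, ← Finset.add_sum_erase _ _ h1.right_mem]
  ring

theorem forced_measurable (p₁ p₂ : ℕ × ℕ) :
    Measurable (fun z : ℝ × (ℕ × ℕ → ℝ) => forced z.2 p₁ p₂ z.1) := by
  unfold forced
  refine (lp_measurable _ _).comp ?_
  rw [measurable_pi_iff]
  intro w
  have h1 : Measurable (fun x : ℕ × ℕ → ℝ => lpm x p₁) := by
    unfold lpm; exact (lp_measurable _ _).sub (measurable_pi_apply _)
  by_cases hw : w = p₁
  · subst hw; simp only [Function.update_self]
    exact measurable_fst.sub (h1.comp measurable_snd)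
  · simp only [Function.update_of_ne hw]; exact (measurable_pi_apply w).comp measurable_snd

/-- the weights in a rectangle except the one at `p₁` -/
noncomputable def others (p₁ p₂ : ℕ × ℕ) (x : ℕ × ℕ → ℝ) (w : ℕ × ℕ) : ℝ :=
  if w ∈ (Finset.Icc (0, 0) (p₁ ⊔ p₂)).erase p₁ then x w else 0

theorem others_measurable (p₁ p₂ : ℕ × ℕ) : Measurable (others p₁ p₂) := by
  rw [measurable_pi_iff]
  intro w
  unfold others
  by_cases hw : w ∈ (Finset.Icc (0, 0) (p₁ ⊔ p₂)).erase p₁
  · simp only [if_pos hw]; exact measurable_pi_apply w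
  · simp only [if_neg hw]; exact measurable_const

theorem others_local (p₁ p₂ : ℕ × ℕ) :
    Local ((Finset.Icc (0, 0) (p₁ ⊔ p₂)).erase p₁) (others p₁ p₂) := by
  intro x y hxy
  funext w
  unfold others
  split_ifs with hw
  · exact hxy w hw
  · rfl

theorem others_apply {p₁ p₂ w : ℕ × ℕ} (x : ℕ × ℕ → ℝ) (h : w ≤ p₁ ∨ w ≤ p₂) (hw : w ≠ p₁) :
    others p₁ p₂ x w = x w := by
  unfold others
  rw [if_pos]
  refine Finset.mem_erase.2 ⟨hw, Finset.mem_Icc.2 ⟨origin_le w, ?_⟩⟩
  rcases h with h | h
  · exact h.trans le_sup_left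
  · exact h.trans le_sup_right

theorem lp_others (p₁ p₂ q : ℕ × ℕ) (x : ℕ × ℕ → ℝ) (c : ℝ) (hq : q ≤ p₁ ∨ q ≤ p₂) :
    lp (Function.update (others p₁ p₂ x) p₁ c) (0, 0) q = lp (Function.update x p₁ c) (0, 0) q := by
  apply lp_congr
  intro w _ h2
  by_cases hw : w = p₁
  · subst hw; simp
  · rw [Function.update_of_ne hw, Function.update_of_ne hw]
    exact others_apply x (hq.imp (fun h => h2.trans h) (fun h => h2.trans h)) hw

theorem lpm_others (p₁ p₂ : ℕ × ℕ) (x : ℕ × ℕ → ℝ) : lpm (others p₁ p₂ x) p₁ = lpm x p₁ := by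
  have h := lp_others p₁ p₂ p₁ x 0 (Or.inl le_rfl)
  rw [← lpm_update x p₁ 0, ← lpm_update (others p₁ p₂ x) p₁ 0]
  unfold lpm
  rw [h]
  simp

theorem forced_others (p₁ p₂ : ℕ × ℕ) (x : ℕ × ℕ → ℝ) (T : ℝ) :
    forced (others p₁ p₂ x) p₁ p₂ T = forced x p₁ p₂ T := by
  unfold forced
  rw [lpm_others, lp_others _ _ _ _ _ (Or.inr le_rfl)]

theorem forced_lp (x : ℕ × ℕ → ℝ) (p₁ p₂ : ℕ × ℕ) :
    forced x p₁ p₂ (lp x (0, 0) p₁) = lp x (0, 0) p₂ := by
  unfold forced lpm
  rw [sub_sub_cancel, Function.update_eq_self]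

variable [IsProbabilityMeasure P]

theorem cond_exists (h : IsExpField P X) {p₁ p₂ : ℕ × ℕ} (hne : p₁ ≠ p₂) {T s c ε : ℝ}
    (hT : T ≠ 0) (hs : 0 < s) (hpos : 0 < P {ω | lpm (fun w => X w ω) p₁ < T}) :
    Tendsto (fun η : ℝ =>
      (P {ω | ε < |lp (fun w => X w ω) (0, 0) p₂ / s - c| ∧
        |lp (fun w => X w ω) (0, 0) p₁ - T| < η}).toReal /
      (P {ω | |lp (fun w => X w ω) (0, 0) p₁ - T| < η}).toReal) (𝓝[>] 0)
      (𝓝 ((cmass P X p₁ T {ω | ε < |forced (fun w => X w ω) p₁ p₂ T / s - c|}).toReal /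
        (cmass P X p₁ T Set.univ).toReal)) := by
  have hX : Measurable (fun ω w => X w ω) := measurable_pi_iff.2 h.meas
  have hind := indep_local h.meas h.indep (S := {p₁})
    (T := (Finset.Icc (0, 0) (p₁ ⊔ p₂)).erase p₁) (by simp)
    (f := fun x => x p₁) (g := others p₁ p₂) (measurable_pi_apply _)
    (others_measurable _ _) (by intro x y hxy; exact hxy _ (by simp)) (others_local _ _)
  have hm1 : Measurable (fun x : ℕ × ℕ → ℝ => lpm x p₁) := by
    unfold lpm; exact (lp_measurable _ _).sub (measurable_pi_apply _)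
  have hU : MeasurableSet {z : ℝ × (ℕ × ℕ → ℝ) | ε < |forced z.2 p₁ p₂ z.1 / s - c|} := by
    have := forced_measurable p₁ p₂
    exact measurableSet_lt measurable_const (by fun_prop)
  have key := cond_limit (P := P) (e := fun ω => X p₁ ω)
    (Y := fun ω => others p₁ p₂ (fun w => X w ω)) (m := fun x => lpm x p₁) (h.meas p₁)
    ((others_measurable _ _).comp hX) hm1 hind (h.law p₁) (x := T) hU ?_ ?_
  · have e1 : ∀ ω, X p₁ ω + lpm (fun w => X w ω) p₁ =
        lp (fun w => X w ω) (0, 0) p₁ := by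
      intro ω; unfold lpm; ring
    simp only [e1, lpm_others, Set.mem_ofPred_eq, forced_others, forced_lp] at key
    unfold cmass
    rw [Set.inter_univ]
    exact key
  · filter_upwards [ae_sum_ne h T, ae_sum_ne h (s * (c + ε)), ae_sum_ne h (s * (c - ε)),
      ae_sum_ne h (s * (c + ε) - T), ae_sum_ne h (s * (c - ε) - T)] with ω g1 g2 g3 g4 g5
    constructor
    · rw [lpm_others]
      obtain ⟨A, hA⟩ := lpm_sum (fun w => X w ω) p₁
      rw [hA]
      rcases A.eq_empty_or_nonempty with h0 | h0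
      · rw [h0]; simpa using hT.symm
      · exact g1 A h0
    · simp only [forced_others]
      have hc : ContinuousAt (fun t => |forced (fun w => X w ω) p₁ p₂ t / s - c|) T := by
        have := (forced_continuous (p₁ := p₁) (p₂ := p₂) (fun w => X w ω)).continuousAt (x := T)
        fun_prop
      have hneq : |forced (fun w => X w ω) p₁ p₂ T / s - c| ≠ ε := by
        intro h1
        have h2 : forced (fun w => X w ω) p₁ p₂ T = s * (c + ε) ∨
            forced (fun w => X w ω) p₁ p₂ T = s * (c - ε) := by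
          rcases abs_choice (forced (fun w => X w ω) p₁ p₂ T / s - c) with h3 | h3
          · left
            rw [h3] at h1
            have : forced (fun w => X w ω) p₁ p₂ T / s = c + ε := by linarith
            field_simp at this; linarith
          · right
            rw [h3] at h1
            have : forced (fun w => X w ω) p₁ p₂ T / s = c - ε := by linarith
            field_simp at this; linarith
        obtain ⟨A, _, hA, h4⟩ := forced_cases (fun w => X w ω) hne T
        rcases h2 with h2 | h2 <;> rcases h4 with h4 | h4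
        · exact g2 A hA (by rw [← h4, h2])
        · exact g4 A hA (by linarith)
        · exact g3 A hA (by rw [← h4, h2])
        · exact g5 A hA (by linarith)
      rcases lt_or_gt_of_ne hneq with h5 | h5
      · filter_upwards [hc.eventually_lt_const h5] with t ht
        constructor <;> intro h6 <;> linarith
      · filter_upwards [hc.eventually_const_lt h5] with t ht
        constructor <;> intro h6 <;> linarith
  · simpa only [lpm_others] using hpos

/-- the conditioning events have positive probability -/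
theorem cond_pos (h : IsExpField P X) {p₁ : ℕ × ℕ} {T : ℝ}
    (hT : T ≠ 0) (hpos : 0 < P {ω | lpm (fun w => X w ω) p₁ < T}) {η : ℝ} (hη : 0 < η) :
    0 < P {ω | |lp (fun w => X w ω) (0, 0) p₁ - T| < η} := by
  have hne : p₁ ≠ (p₁.1 + 1, p₁.2) := by
    intro hh; have := congrArg Prod.fst hh; simp at this
  have key := cond_exists h hne (s := 1) (c := 0) (ε := -1) hT one_pos hpos
  have e1 : ∀ y : ℝ, (-1 < |y|) = True := by
    intro y; simp only [eq_iff_iff, iff_true]; linarith [abs_nonneg y]
  simp only [e1, true_and, Set.ofPred_true] at key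
  by_contra hcon
  rw [not_lt, nonpos_iff_eq_zero] at hcon
  have h0 : ∀ᶠ t : ℝ in 𝓝[>] 0, (P {ω | |lp (fun w => X w ω) (0, 0) p₁ - T| < t}).toReal /
      (P {ω | |lp (fun w => X w ω) (0, 0) p₁ - T| < t}).toReal = 0 := by
    have h4 : ∀ᶠ t in 𝓝 (0 : ℝ), t < η := eventually_lt_nhds hη
    filter_upwards [h4.filter_mono nhdsWithin_le_nhds] with t ht
    have h5 : P {ω | |lp (fun w => X w ω) (0, 0) p₁ - T| < t} = 0 := by
      refine measure_mono_null ?_ hcon
      intro ω hω
      exact lt_trans (show _ < _ from hω) ht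
    rw [h5]; simp
  have h6 : Tendsto (fun t : ℝ => (0 : ℝ)) (𝓝[>] 0) (𝓝 ((cmass P X p₁ T Set.univ).toReal /
        (cmass P X p₁ T Set.univ).toReal)) := key.congr' h0
  have h7 := tendsto_nhds_unique h6 tendsto_const_nhds
  have h8 : (cmass P X p₁ T Set.univ).toReal ≠ 0 := by
    rw [ENNReal.toReal_ne_zero]
    constructor
    · intro h9
      unfold cmass at h9
      rw [Set.inter_univ] at h9
      have hmm := lpm_measurable h.meas p₁
      rw [lintegral_eq_zero_iff (by fun_prop)] at h9
      have h10 : (P.restrict {ω | lpm (fun w => X w ω) p₁ < T}) Set.univ = 0 := by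
        have h11 : ∀ᵐ ω ∂(P.restrict {ω | lpm (fun w => X w ω) p₁ < T}), False := by
          filter_upwards [h9] with ω hω
          simp only [Pi.zero_apply, ENNReal.ofReal_eq_zero] at hω
          exact absurd (Real.exp_pos _) (not_lt.2 hω)
        have := ae_iff.1 h11
        simpa using this
      rw [Measure.restrict_apply_univ] at h10
      exact hpos.ne' h10
    · exact ((cmass_le h.meas).trans_lt (measure_lt_top P _)).ne
  rw [div_self h8] at h7
  exact one_ne_zero h7

end Helper97.LPP
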