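import Pool.Agent.Helper97.LPP.Field

/-! Definitions for the conditional hydrodynamic limit (MP_6c0a5d_pr). -/

open MeasureTheory ProbabilityTheory Filter Topology
open scoped ENNReal

namespace Helper97.LPP

/-- `(√a + √b)²` -/
noncomputable def shp (a b : ℝ) : ℝ := (√a + √b) ^ 2

/-- `D = ℓ² - 2(a+b)ℓ + (a-b)²` -/
noncomputable def disc (a b l : ℝ) : ℝ := l ^ 2 - 2 * (a + b) * l + (a - b) ^ 2

/-- `m = (s + √D)/(s - √D)`, `s = ℓ - a - b` -/
noncomputable def mm (a b l : ℝ) : ℝ :=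
  (l - a - b + √(disc a b l)) / (l - a - b - √(disc a b l))

/-- the region `Ω₁` -/
def Om1 (a b l : ℝ) : Set (ℝ × ℝ) :=
  {p | 1 < p.1 ∧ 1 < p.2 ∧ (mm a b l)⁻¹ < (p.2 - 1) / (p.1 - 1) ∧
    (p.2 - 1) / (p.1 - 1) < mm a b l}

/-- the region `Ω₂` -/
def Om2 (a b l : ℝ) : Set (ℝ × ℝ) :=
  {p | 0 < p.1 ∧ 0 < p.2 ∧ (mm a b l)⁻¹ < p.2 / p.1 ∧ p.2 / p.1 < mm a b l}

open Classical in
/-- the function `h` of the problem -/
noncomputable def hh (a b l u v : ℝ) : ℝ :=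
  if (u, v) ∈ Om1 a b l then l + shp (a * u - a) (b * v - b)
  else if (u, v) ∈ Om2 a b l then
    (1 / 2) * (u * (l + a - b) + v * (l - a + b) - √(disc a b l) * |u - v|)
  else shp (a * u) (b * v)

/-- exponent per column -/
noncomputable def hC (z w : ℝ) : ℝ := Real.log (w / z)

/-- exponent per row -/
noncomputable def hR (z w : ℝ) : ℝ := Real.log ((1 - z) / (1 - w))

/-- the smaller root of `a/x + b/(1-x) = l` -/
noncomputable def zl (a b l : ℝ) : ℝ := (l + a - b - √(disc a b l)) / (2 * l)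

/-- the larger root of `a/x + b/(1-x) = l` -/
noncomputable def wl (a b l : ℝ) : ℝ := (l + a - b + √(disc a b l)) / (2 * l)

/-- the upper tail rate function -/
noncomputable def rate (a b l : ℝ) : ℝ :=
  (wl a b l - zl a b l) * l - a * hC (zl a b l) (wl a b l) - b * hR (zl a b l) (wl a b l)

/-- the lattice point near `(a N, b N)` (coordinates start at `0`, so that the rectangle
`[0, pt a b N]` has `⌈a N⌉ × ⌈b N⌉` sites) -/
noncomputable def pt (a b : ℝ) (N : ℕ) : ℕ × ℕ := (⌈a * N⌉₊ - 1, ⌈b * N⌉₊ - 1)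

variable {Ω : Type*} [MeasurableSpace Ω]

/-- `E exp (θ L(p → q))` -/
noncomputable def emom (P : Measure Ω) (X : ℕ × ℕ → Ω → ℝ) (θ : ℝ) (p q : ℕ × ℕ) : ℝ≥0∞ :=
  ∫⁻ ω, ENNReal.ofReal (Real.exp (θ * lp (fun w => X w ω) p q)) ∂P

/-- the passage time from the origin to `q` without the weight of `q` -/
noncomputable def lpm (x : ℕ × ℕ → ℝ) (q : ℕ × ℕ) : ℝ := lp x (0, 0) q - x q

end Helper97.LPP
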