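import Mathlib

/-! Elementary facts on the exponential distribution. -/

open MeasureTheory ProbabilityTheory
open scoped ENNReal

namespace Helper97.LPP

theorem expMeasure_eq (r : ℝ) : expMeasure r = volume.withDensity (exponentialPDF r) := rfl

theorem exponentialPDF_measurable (r : ℝ) : Measurable (exponentialPDF r) :=
  (measurable_exponentialPDFReal r).ennreal_ofReal

theorem lintegral_exp (r : ℝ) {f : ℝ → ℝ≥0∞} (hf : Measurable f) :
    ∫⁻ x, f x ∂(expMeasure r) = ∫⁻ x in Set.Ioi 0, ENNReal.ofReal (r * Real.exp (-(r * x))) * f x := by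
  rw [expMeasure_eq, lintegral_withDensity_eq_lintegral_mul _ (exponentialPDF_measurable r) hf,
    ← lintegral_add_compl _ (measurableSet_Ioi (a := (0:ℝ)))]
  have h1 : ∫⁻ x in (Set.Ioi (0:ℝ))ᶜ, (exponentialPDF r * f) x = 0 := by
    rw [Set.compl_Ioi, setLIntegral_congr Iio_ae_eq_Iic.symm]
    rw [setLIntegral_congr_fun measurableSet_Iio (g := fun _ => 0)]
    · simp
    · intro x hx
      simp [exponentialPDF_of_neg hx]
  rw [h1, add_zero]
  refine setLIntegral_congr_fun measurableSet_Ioi ?_
  intro x hx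
  simp only [Pi.mul_apply]
  rw [exponentialPDF_of_nonneg (le_of_lt hx)]

theorem expMeasure_singleton (r a : ℝ) : expMeasure r {a} = 0 := by
  rw [expMeasure_eq, withDensity_apply _ (measurableSet_singleton a)]
  simp

theorem expMeasure_Iic (r : ℝ) : expMeasure r (Set.Iic 0) = 0 := by
  rw [expMeasure_eq, withDensity_apply _ measurableSet_Iic,
    setLIntegral_congr Iio_ae_eq_Iic.symm,
    setLIntegral_congr_fun measurableSet_Iio (g := fun _ => 0)]
  · simp
  · intro x hx
    simp [exponentialPDF_of_neg hx]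

theorem expMeasure_ae_pos (r : ℝ) : ∀ᵐ x ∂(expMeasure r), 0 < x := by
  rw [ae_iff]
  have : {a : ℝ | ¬ 0 < a} = Set.Iic 0 := by ext; simp
  rw [this]; exact expMeasure_Iic r

/-- exponential moments -/
theorem lintegral_exp_exp {r s : ℝ} (hr : 0 < r) (hs : s < r) :
    ∫⁻ x, ENNReal.ofReal (Real.exp (s * x)) ∂(expMeasure r) = ENNReal.ofReal (r / (r - s)) := by
  rw [lintegral_exp r (by fun_prop)]
  have h1 : ∀ x : ℝ, ENNReal.ofReal (r * Real.exp (-(r * x))) * ENNReal.ofReal (Real.exp (s * x)) =
      ENNReal.ofReal (r * Real.exp (-(r - s) * x)) := by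
    intro x
    rw [← ENNReal.ofReal_mul (by positivity), mul_assoc, ← Real.exp_add]
    congr 3; ring
  simp_rw [h1]
  have h2 : IntegrableOn (fun x : ℝ => Real.exp (-(r - s) * x)) (Set.Ioi 0) :=
    integrableOn_exp_mul_Ioi (by linarith) 0
  rw [← ofReal_integral_eq_lintegral_ofReal]
  · congr 1
    rw [integral_const_mul, integral_exp_mul_Ioi (by linarith)]
    simp only [mul_zero, Real.exp_zero]
    have : r - s ≠ 0 := by linarith
    field_simp
  · exact h2.const_mul r
  · exact Filter.Eventually.of_forall fun x => by positivity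

end Helper97.LPP
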