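import Pool.Agent.Helper97.LPP.Path
import Pool.Agent.Helper97.LPP.Exp

/-!
Fields of independent weights: laws and independence of functions of finitely many weights.
-/

open MeasureTheory ProbabilityTheory Finset
open scoped ENNReal

namespace Helper97.LPP

variable {Ω : Type*} [MeasurableSpace Ω] {P : Measure Ω}

/-- independent exponential weights of mean one -/
structure IsExpField (P : Measure Ω) (X : ℕ × ℕ → Ω → ℝ) : Prop where
  meas : ∀ w, Measurable (X w)
  indep : iIndepFun X P
  law : ∀ w, P.map (X w) = expMeasure 1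

/-- a function of the weights in the finite set `S` only -/
def Local {β : Type*} (S : Finset (ℕ × ℕ)) (f : (ℕ × ℕ → ℝ) → β) : Prop :=
  ∀ x y : ℕ × ℕ → ℝ, (∀ w ∈ S, x w = y w) → f x = f y

/-- extension of a configuration on `S` by zero -/
noncomputable def ext0 (S : Finset (ℕ × ℕ)) (x : S → ℝ) (w : ℕ × ℕ) : ℝ :=
  if h : w ∈ S then x ⟨w, h⟩ else 0

theorem ext0_measurable (S : Finset (ℕ × ℕ)) : Measurable (ext0 S) := by
  rw [measurable_pi_iff]
  intro w
  unfold ext0
  by_cases h : w ∈ S
  · simp only [h, dite_true]; exact measurable_pi_apply _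
  · simp only [h, dite_false]; exact measurable_const

theorem local_ext0 {β : Type*} {S : Finset (ℕ × ℕ)} {f : (ℕ × ℕ → ℝ) → β} (hf : Local S f)
    (x : ℕ × ℕ → ℝ) : f (ext0 S (fun w => x w)) = f x := by
  apply hf
  intro w hw
  simp [ext0, hw]

/-- functions of disjoint finite sets of independent weights are independent -/
theorem indep_local {X : ℕ × ℕ → Ω → ℝ} (hm : ∀ w, Measurable (X w)) (hi : iIndepFun X P)
    {β γ : Type*} [MeasurableSpace β] [MeasurableSpace γ]
    {S T : Finset (ℕ × ℕ)} (hST : Disjoint S T) {f : (ℕ × ℕ → ℝ) → β} {g : (ℕ × ℕ → ℝ) → γ}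
    (hf : Measurable f) (hg : Measurable g) (hfS : Local S f) (hgT : Local T g) :
    IndepFun (fun ω => f (fun w => X w ω)) (fun ω => g (fun w => X w ω)) P := by
  have h := hi.indepFun_finset S T hST hm
  have h2 := h.comp (hf.comp (ext0_measurable S)) (hg.comp (ext0_measurable T))
  have e1 : (f ∘ ext0 S) ∘ (fun a (i : S) => X i a) = fun ω => f (fun w => X w ω) := by
    funext ω
    exact local_ext0 hfS (fun w => X w ω)
  have e2 : (g ∘ ext0 T) ∘ (fun a (i : T) => X i a) = fun ω => g (fun w => X w ω) := by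
    funext ω
    exact local_ext0 hgT (fun w => X w ω)
  rwa [e1, e2] at h2

/-- the law of a function of finitely many independent weights depends only on their laws -/
theorem law_local [IsProbabilityMeasure P] {X : ℕ × ℕ → Ω → ℝ} (hm : ∀ w, Measurable (X w))
    (hi : iIndepFun X P) {Ω' : Type*} [MeasurableSpace Ω'] {P' : Measure Ω'}
    [IsProbabilityMeasure P'] {X' : ℕ × ℕ → Ω' → ℝ} (hm' : ∀ w, Measurable (X' w))
    (hi' : iIndepFun X' P') {β : Type*} [MeasurableSpace β] {S : Finset (ℕ × ℕ)}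
    (hlaw : ∀ w ∈ S, P.map (X w) = P'.map (X' w)) {f : (ℕ × ℕ → ℝ) → β}
    (hf : Measurable f) (hfS : Local S f) :
    P.map (fun ω => f (fun w => X w ω)) = P'.map (fun ω => f (fun w => X' w ω)) := by
  have h1 : iIndepFun (fun w : S => X w) P := hi.precomp Subtype.val_injective
  have h1' : iIndepFun (fun w : S => X' w) P' := hi'.precomp Subtype.val_injective
  have h2 := (iIndepFun_iff_map_fun_eq_pi_map (fun w : S => (hm w).aemeasurable)).1 h1
  have h2' := (iIndepFun_iff_map_fun_eq_pi_map (fun w : S => (hm' w).aemeasurable)).1 h1'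
  have h3 : P.map (fun ω (w : S) => X w ω) = P'.map (fun ω (w : S) => X' w ω) := by
    rw [h2, h2']
    congr 1
    funext w
    exact hlaw w w.2
  have e1 : (fun ω => f (fun w => X w ω)) = (f ∘ ext0 S) ∘ (fun ω (w : S) => X w ω) := by
    funext ω
    exact (local_ext0 hfS (fun w => X w ω)).symm
  have e2 : (fun ω => f (fun w => X' w ω)) = (f ∘ ext0 S) ∘ (fun ω (w : S) => X' w ω) := by
    funext ω
    exact (local_ext0 hfS (fun w => X' w ω)).symm
  have hfe : Measurable (f ∘ ext0 S) := hf.comp (ext0_measurable S)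
  have hX : Measurable (fun ω (w : S) => X w ω) := measurable_pi_iff.2 fun w => hm w
  have hX' : Measurable (fun ω (w : S) => X' w ω) := measurable_pi_iff.2 fun w => hm' w
  rw [e1, e2, ← Measure.map_map hfe hX, ← Measure.map_map hfe hX', h3]

theorem local_lp (p q : ℕ × ℕ) : Local (Finset.Icc p q) (fun x => lp x p q) := by
  intro x y h
  exact lp_congr fun w h1 h2 => h w (Finset.mem_Icc.2 ⟨h1, h2⟩)

theorem Local.mono {β : Type*} {S T : Finset (ℕ × ℕ)} {f : (ℕ × ℕ → ℝ) → β} (hf : Local S f)
    (h : S ⊆ T) : Local T f := fun x y hxy => hf x y fun w hw => hxy w (h hw)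

theorem IsExpField.shift {X : ℕ × ℕ → Ω → ℝ} (h : IsExpField P X) (c : ℕ × ℕ) :
    IsExpField P (fun w => X (w + c)) where
  meas _ := h.meas _
  indep := h.indep.precomp (g := fun w : ℕ × ℕ => w + c) (add_left_injective c)
  law _ := h.law _

theorem IsExpField.swap {X : ℕ × ℕ → Ω → ℝ} (h : IsExpField P X) :
    IsExpField P (fun w => X w.swap) where
  meas _ := h.meas _
  indep := h.indep.precomp (g := fun w : ℕ × ℕ => w.swap) Prod.swap_injective
  law _ := h.law _

/-- the law of a passage time depends only on the size of the rectangle -/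
theorem IsExpField.lp_law [IsProbabilityMeasure P] {X : ℕ × ℕ → Ω → ℝ} (h : IsExpField P X)
    {Ω' : Type*} [MeasurableSpace Ω'] {P' : Measure Ω'} [IsProbabilityMeasure P']
    {X' : ℕ × ℕ → Ω' → ℝ} (h' : IsExpField P' X') (p p' : ℕ × ℕ) (m n : ℕ) :
    P.map (fun ω => lp (fun w => X w ω) p (p.1 + m, p.2 + n)) =
      P'.map (fun ω => lp (fun w => X' w ω) p' (p'.1 + m, p'.2 + n)) := by
  have e1 : (fun ω => lp (fun w => X w ω) p (p.1 + m, p.2 + n)) =
      fun ω => lp (fun w => X (w + p) ω) (0, 0) (m, n) := by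
    funext ω
    have := lp_shift (fun w => X w ω) (0, 0) (m, n) p
    rw [← this]
    congr 1 <;> ext <;> simp [add_comm]
  have e2 : (fun ω => lp (fun w => X' w ω) p' (p'.1 + m, p'.2 + n)) =
      fun ω => lp (fun w => X' (w + p') ω) (0, 0) (m, n) := by
    funext ω
    have := lp_shift (fun w => X' w ω) (0, 0) (m, n) p'
    rw [← this]
    congr 1 <;> ext <;> simp [add_comm]
  rw [e1, e2]
  exact law_local (h.shift p).meas (h.shift p).indep (h'.shift p').meas (h'.shift p').indep
    (S := Finset.Icc (0, 0) (m, n)) (fun w _ => by rw [(h.shift p).law, (h'.shift p').law])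
    (lp_measurable _ _) (local_lp _ _)

theorem IsExpField.measurable_lp {X : ℕ × ℕ → Ω → ℝ} (hm : ∀ w, Measurable (X w)) (p q : ℕ × ℕ) :
    Measurable (fun ω => lp (fun w => X w ω) p q) :=
  (lp_measurable p q).comp (measurable_pi_iff.2 hm)

/-- the weights are positive -/
theorem IsExpField.ae_pos {X : ℕ × ℕ → Ω → ℝ} (h : IsExpField P X) :
    ∀ᵐ ω ∂P, ∀ w, 0 < X w ω := by
  rw [ae_all_iff]
  intro w
  have h1 : ∀ᵐ x ∂(P.map (X w)), 0 < x := by
    rw [h.law w]; exact expMeasure_ae_pos 1
  exact ae_of_ae_map (h.meas w).aemeasurable h1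

end Helper97.LPP
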