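import Pool.Agent.Helper97.LPP.Assembly

open MeasureTheory ProbabilityTheory Filter Topology
open scoped ENNReal

namespace Helper97.LPP

variable {Ω : Type*} [MeasurableSpace Ω] {P : Measure Ω} [IsProbabilityMeasure P]
  {X : ℕ × ℕ → Ω → ℝ}

theorem hh_one {a b l : ℝ} (ha : 0 < a) (hb : 0 < b) (hl : shp a b < l) :
    hh a b l 1 1 = l := by
  have h1 : ((1 : ℝ), (1 : ℝ)) ∉ Om1 a b l := fun h => lt_irrefl _ h.1
  have h2 : ((1 : ℝ), (1 : ℝ)) ∈ Om2 a b l := by
    have hm := (h36_mm ha hb hl).1
    refine ⟨one_pos, one_pos, ?_, ?_⟩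
    · simp only [div_one]; exact inv_lt_one_of_one_lt₀ hm
    · simpa using hm
  unfold hh
  rw [if_neg h1, if_pos h2]
  simp
  ring

theorem lpm_pos_prob (h : IsExpField P X) {a b l : ℝ} (ha : 0 < a) (hb : 0 < b)
    (hl : shp a b < l) : ∀ᶠ N : ℕ in atTop, 0 < P {ω | lpm (fun w => X w ω) (pt a b N) < l * N} := by
  filter_upwards [cmass_lower h ha hb hl one_pos] with N hN
  have h1 : cmass P X (pt a b N) (l * N) Set.univ ≤
      cmass P X (pt a b N) (l * N) {ω | lpm (fun w => X w ω) (pt a b N) < l * N} :=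
    cmass_mono (Eventually.of_forall fun ω h1 _ => h1)
  refine lt_of_lt_of_le ?_ (hN.trans (h1.trans (cmass_le h.meas)))
  simp [Real.exp_pos]

/-- the conditional hydrodynamic limit for sites with coordinates starting at zero -/
theorem final_field (h : IsExpField P X) {a b l u v : ℝ} (ha : 0 < a) (hb : 0 < b)
    (hl : shp a b < l) (hu : 0 < u) (hv : 0 < v) {ε : ℝ} (hε : 0 < ε) :
    ∃ c : ℕ → ℝ, (∀ᶠ N : ℕ in atTop,
      (∀ η > 0, 0 < P {ω | |lp (fun w => X w ω) (0, 0) (pt a b N) - l * N| < η}) ∧
      Tendsto (fun η : ℝ =>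
        (P {ω | ε < |lp (fun w => X w ω) (0, 0) (pt (a * u) (b * v) N) / N - hh a b l u v| ∧
          |lp (fun w => X w ω) (0, 0) (pt a b N) - l * N| < η}).toReal /
        (P {ω | |lp (fun w => X w ω) (0, 0) (pt a b N) - l * N| < η}).toReal) (𝓝[>] 0)
        (𝓝 (c N))) ∧ Tendsto c atTop (𝓝 0) := by
  have hl0 : 0 < l := (shp_pos (b := b) ha).trans hl
  have hpos : ∀ᶠ N : ℕ in atTop,
      ∀ η > 0, 0 < P {ω | |lp (fun w => X w ω) (0, 0) (pt a b N) - l * N| < η} := by
    filter_upwards [lpm_pos_prob h ha hb hl, eventually_ge_atTop 1] with N h1 h2 η hη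
    have h3 : (0 : ℝ) < N := by exact_mod_cast h2
    exact cond_pos h (mul_pos hl0 h3).ne' h1 hη
  by_cases h11 : u = 1 ∧ v = 1
  · obtain ⟨rfl, rfl⟩ := h11
    refine ⟨fun _ => 0, ?_, tendsto_const_nhds⟩
    filter_upwards [hpos, eventually_ge_atTop 1] with N h1 h2
    refine ⟨h1, ?_⟩
    have h3 : (0 : ℝ) < N := by exact_mod_cast h2
    refine tendsto_const_nhds.congr' ?_
    have h4 : ∀ᶠ t in 𝓝 (0 : ℝ), t < ε * N := eventually_lt_nhds (by positivity)
    filter_upwards [h4.filter_mono nhdsWithin_le_nhds] with t ht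
    have h5 : {ω | ε < |lp (fun w => X w ω) (0, 0) (pt (a * 1) (b * 1) N) / N - hh a b l 1 1| ∧
          |lp (fun w => X w ω) (0, 0) (pt a b N) - l * N| < t} = ∅ := by
      rw [Set.eq_empty_iff_forall_notMem]
      rintro ω ⟨h6, h7⟩
      rw [mul_one, mul_one, hh_one ha hb hl] at h6
      have h8 : lp (fun w => X w ω) (0, 0) (pt a b N) / N - l =
          (lp (fun w => X w ω) (0, 0) (pt a b N) - l * N) / N := by field_simp
      rw [h8, abs_div, Nat.abs_cast, lt_div_iff₀ h3] at h6
      linarith
    rw [h5]; simp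
  · -- the two points differ
    have hne : ∀ᶠ N : ℕ in atTop, pt a b N ≠ pt (a * u) (b * v) N := by
      rw [not_and_or] at h11
      rcases h11 with h1 | h1
      · filter_upwards [eventually_lin (show 0 < a * |u - 1| by
            have := abs_pos.2 (sub_ne_zero.2 h1); positivity) 1,
          eventually_ge_atTop 1] with N g1 g2 g3
        have f1 := pt_bounds ha hb g2
        have f2 := pt_bounds (mul_pos ha hu) (mul_pos hb hv) g2
        rw [← g3] at f2
        rcases abs_cases (u - 1) with ⟨g4, _⟩ | ⟨g4, _⟩ <;> rw [g4] at g1 <;> nlinarith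
      · filter_upwards [eventually_lin (show 0 < b * |v - 1| by
            have := abs_pos.2 (sub_ne_zero.2 h1); positivity) 1,
          eventually_ge_atTop 1] with N g1 g2 g3
        have f1 := pt_bounds ha hb g2
        have f2 := pt_bounds (mul_pos ha hu) (mul_pos hb hv) g2
        rw [← g3] at f2
        rcases abs_cases (v - 1) with ⟨g4, _⟩ | ⟨g4, _⟩ <;> rw [g4] at g1 <;> nlinarith
    refine ⟨fun N => (cmass P X (pt a b N) (l * N) {ω | ε <
        |forced (fun w => X w ω) (pt a b N) (pt (a * u) (b * v) N) (l * N) / N -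
          hh a b l u v|}).toReal / (cmass P X (pt a b N) (l * N) Set.univ).toReal, ?_, ?_⟩
    · filter_upwards [hpos, hne, lpm_pos_prob h ha hb hl, eventually_ge_atTop 1]
        with N h1 h2 h3 h4
      have h5 : (0 : ℝ) < N := by exact_mod_cast h4
      exact ⟨h1, cond_exists h h2 (mul_pos hl0 h5).ne' h5 h3⟩
    · have hneg : Negl P X a b l (fun N => {ω | ε <
          |forced (fun w => X w ω) (pt a b N) (pt (a * u) (b * v) N) (l * N) / N -
            hh a b l u v|}) := by
        refine ((forced_upper_negl h ha hb hl hu hv hε).union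
          (forced_lower_negl h ha hb hl hu hv hε)).mono ?_
        filter_upwards [eventually_ge_atTop 1] with N h4
        have h5 : (0 : ℝ) < N := by exact_mod_cast h4
        refine Eventually.of_forall fun ω _ h6 => ?_
        have h7 : ε < |forced (fun w => X w ω) (pt a b N) (pt (a * u) (b * v) N) (l * N) / N -
            hh a b l u v| := h6
        rcases lt_abs.1 h7 with h8 | h8
        · left
          show (hh a b l u v + ε) * N <
            forced (fun w => X w ω) (pt a b N) (pt (a * u) (b * v) N) (l * N)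
          rw [← lt_div_iff₀ h5]; linarith
        · right
          show forced (fun w => X w ω) (pt a b N) (pt (a * u) (b * v) N) (l * N) <
            (hh a b l u v - ε) * N
          rw [← div_lt_iff₀ h5]; linarith
      unfold Negl at hneg
      have h9 := (ENNReal.tendsto_toReal ENNReal.zero_ne_top).comp hneg
      simp only [ENNReal.toReal_zero] at h9
      refine h9.congr fun N => ?_
      simp only [Function.comp_apply, ENNReal.toReal_div]

end Helper97.LPP
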