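import Pool.Agent.Helper97.LPP.Rec

/-! The passage time to `p₂` when the passage time to `p₁` is forced to have a given value. -/

open Finset

namespace Helper97.LPP

/-- the passage time to `p₂` when the weight of `p₁` is changed so that the passage time to
`p₁` becomes `T` -/
noncomputable def forced (x : ℕ × ℕ → ℝ) (p₁ p₂ : ℕ × ℕ) (T : ℝ) : ℝ :=
  lp (Function.update x p₁ (T - lpm x p₁)) (0, 0) p₂

variable {p₁ p₂ : ℕ × ℕ} {π : Finset (ℕ × ℕ)}

theorem origin_le (p : ℕ × ℕ) : (0, 0) ≤ p := ⟨Nat.zero_le _, Nat.zero_le _⟩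

theorem lpm_update (x : ℕ × ℕ → ℝ) (p : ℕ × ℕ) (c : ℝ) :
    lpm (Function.update x p c) p = lpm x p := by
  unfold lpm
  rw [lp_update_last x (origin_le p)]
  simp

theorem lp_forced_self (x : ℕ × ℕ → ℝ) (p : ℕ × ℕ) (T : ℝ) :
    lp (Function.update x p (T - lpm x p)) (0, 0) p = T := by
  rw [lp_update_last x (origin_le p)]
  unfold lpm
  ring

/-- the weights of a set without `p₁` are not changed -/
theorem sum_update_of_notMem (x : ℕ × ℕ → ℝ) {p : ℕ × ℕ} {c : ℝ} (h : p ∉ π) :
    ∑ w ∈ π, Function.update x p c w = ∑ w ∈ π, x w := by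
  refine Finset.sum_congr rfl fun w hw => ?_
  rw [Function.update_of_ne]
  rintro rfl
  exact h hw

theorem sum_update_erase (x : ℕ × ℕ → ℝ) {p : ℕ × ℕ} {c : ℝ} (h : p ∈ π) :
    ∑ w ∈ π, Function.update x p c w = ∑ w ∈ π.erase p, x w + c := by
  rw [← Finset.add_sum_erase _ _ h, Function.update_self,
    sum_update_of_notMem x (Finset.notMem_erase p π)]
  ring

theorem lp_update_first (x : ℕ × ℕ → ℝ) {p q : ℕ × ℕ} (h : p ≤ q) (c : ℝ) :
    lp (Function.update x p c) p q = lp x p q - x p + c := by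
  have key : ∀ (x y : ℕ × ℕ → ℝ), (∀ w, w ≠ p → x w = y w) →
      lp x p q - x p ≤ lp y p q - y p := by
    intro x y hxy
    obtain ⟨π, h1, h2⟩ := exists_lp x h
    have h3 : ∑ w ∈ π, x w - x p = ∑ w ∈ π, y w - y p := by
      rw [← Finset.add_sum_erase _ _ h1.left_mem, ← Finset.add_sum_erase _ y h1.left_mem]
      have : ∑ w ∈ π.erase p, x w = ∑ w ∈ π.erase p, y w :=
        Finset.sum_congr rfl fun w hw => hxy w (Finset.ne_of_mem_erase hw)
      rw [this]; ring
    rw [h2, h3]
    have := le_lp y h1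
    linarith
  have h1 := key x (Function.update x p c) (fun w hw => by simp [hw])
  have h2 := key (Function.update x p c) x (fun w hw => by simp [hw])
  simp only [Function.update_self] at h1 h2
  linarith

theorem forced_ge (x : ℕ × ℕ → ℝ) (h : p₁ ≤ p₂) (T : ℝ) :
    T + (lp x p₁ p₂ - x p₁) ≤ forced x p₁ p₂ T := by
  unfold forced
  have h1 := lp_add_le (Function.update x p₁ (T - lpm x p₁)) (p := (0, 0)) (w := p₁) (q := p₂)
    (origin_le _) h
  rw [lp_forced_self, lp_update_first x h, Function.update_self] at h1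
  linarith

theorem forced_gt {x : ℕ × ℕ → ℝ} {T c : ℝ} (h : c < forced x p₁ p₂ T) :
    (p₁ ≤ p₂ ∧ c < T + (lp x p₁ p₂ - x p₁)) ∨ c < lp x (0, 0) p₂ := by
  unfold forced at h
  obtain ⟨π, h1, h2⟩ := exists_lp (Function.update x p₁ (T - lpm x p₁)) (p := (0, 0)) (q := p₂)
    (origin_le _)
  rw [h2] at h
  by_cases hp : p₁ ∈ π
  · left
    obtain ⟨π₁, π₂, h3, h4, h5⟩ := h1.split hp
    refine ⟨h4.le, ?_⟩
    rw [h5, sum_union _ h3 h4, Function.update_self] at h
    have h6 := le_lp (Function.update x p₁ (T - lpm x p₁)) h3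
    rw [lp_forced_self] at h6
    have h7 := le_lp (Function.update x p₁ (T - lpm x p₁)) h4
    rw [lp_update_first x h4.le] at h7
    linarith
  · right
    rw [sum_update_of_notMem x hp] at h
    exact h.trans_le (le_lp x h1)

theorem forced_ge_zero {x : ℕ × ℕ → ℝ} {T : ℝ} (h : lpm x p₁ ≤ T) :
    lp (Function.update x p₁ 0) (0, 0) p₂ ≤ forced x p₁ p₂ T := by
  unfold forced
  apply lp_mono_weight (origin_le _)
  intro w
  by_cases hw : w = p₁
  · subst hw; simp only [Function.update_self]; linarith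
  · rw [Function.update_of_ne hw, Function.update_of_ne hw]

/-- the forced passage time is one of finitely many nonempty sums, possibly plus `T` -/
theorem forced_cases (x : ℕ × ℕ → ℝ) (h : p₁ ≠ p₂) (T : ℝ) :
    ∃ A ∈ (Finset.Icc (0, 0) p₂).powerset, A.Nonempty ∧
      (forced x p₁ p₂ T = ∑ w ∈ A, x w ∨ forced x p₁ p₂ T = T + ∑ w ∈ A, x w) := by
  have h0 : forced x p₁ p₂ T = lp (Function.update x p₁ (T - lpm x p₁)) (0, 0) p₂ := rfl
  obtain ⟨π, h1, h2⟩ := exists_lp (Function.update x p₁ (T - lpm x p₁)) (p := (0, 0)) (q := p₂)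
    (origin_le _)
  by_cases hp : p₁ ∈ π
  · obtain ⟨π₁, π₂, h3, h4, h5⟩ := h1.split hp
    refine ⟨π₂.erase p₁, ?_, ⟨p₂, Finset.mem_erase.2 ⟨h.symm, h4.right_mem⟩⟩, Or.inr ?_⟩
    · rw [Finset.mem_powerset]
      intro w hw
      exact Finset.mem_Icc.2 ⟨origin_le _, (h4.mem_le (Finset.mem_of_mem_erase hw)).2⟩
    · apply le_antisymm
      · rw [h0, h2, h5, sum_union _ h3 h4, Function.update_self, sum_update_erase x h4.left_mem]
        have h6 := le_lp (Function.update x p₁ (T - lpm x p₁)) h3
        rw [lp_forced_self] at h6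
        linarith
      · refine le_trans ?_ (forced_ge x h4.le T)
        have h7 := le_lp x h4
        rw [← Finset.add_sum_erase _ _ h4.left_mem] at h7
        linarith
  · refine ⟨π, ?_, ⟨p₂, h1.right_mem⟩, Or.inl ?_⟩
    · rw [Finset.mem_powerset]; exact h1.subset
    · rw [h0, h2, sum_update_of_notMem x hp]

theorem lp_update_continuous (x : ℕ × ℕ → ℝ) (p q : ℕ × ℕ) :
    Continuous fun s : ℝ => lp (Function.update x p s) (0, 0) q := by
  have h : ∀ s, lp (Function.update x p s) (0, 0) q =
      (paths (0, 0) q).sup' (paths_nonempty (origin_le q))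
        (fun π => ∑ w ∈ π, Function.update x p s w) := fun s => lp_eq_sup' _ (origin_le q)
  simp only [h]
  apply Continuous.finset_sup'_apply
  intro π _
  apply continuous_finsetSum
  intro w _
  by_cases hw : w = p
  · subst hw; simp only [Function.update_self]; exact continuous_id
  · simp only [Function.update_of_ne hw]; exact continuous_const

theorem forced_continuous (x : ℕ × ℕ → ℝ) : Continuous fun T : ℝ => forced x p₁ p₂ T := by
  unfold forced
  exact (lp_update_continuous x p₁ p₂).comp (continuous_id.sub continuous_const)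

/-- setting one weight to zero decreases the passage time by at most this weight -/
theorem lp_le_update_zero (x : ℕ × ℕ → ℝ) {p q p' : ℕ × ℕ} (h : p ≤ q) (hx : 0 ≤ x p') :
    lp x p q ≤ lp (Function.update x p' 0) p q + x p' := by
  obtain ⟨π, h1, h2⟩ := exists_lp x h
  have h3 := le_lp (Function.update x p' 0) h1
  by_cases hp : p' ∈ π
  · rw [sum_update_erase x hp] at h3
    rw [h2, ← Finset.add_sum_erase _ _ hp]
    linarith
  · rw [sum_update_of_notMem x hp] at h3
    rw [h2]; linarith

end Helper97.LPP
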