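import Pool.Agent.Helper97.LPP.Forced
import Pool.Agent.Helper97.LPP.Mgf
import Pool.Agent.Helper44.LPP.Density
import Pool.Agent.Helper44.LPP.UpperPair
import Pool.Agent.Helper79.LPP.ExitBound

/-! Negligible events under conditioning on the passage time. -/

open MeasureTheory ProbabilityTheory Filter Topology
open scoped ENNReal

namespace Helper97.LPP

variable {Ω : Type*} [MeasurableSpace Ω] {P : Measure Ω}
  {X : ℕ × ℕ → Ω → ℝ}

/-- the mass of the event `E` under the (unnormalised) conditioning on passage time `T` at `p` -/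
noncomputable def cmass (P : Measure Ω) (X : ℕ × ℕ → Ω → ℝ) (p : ℕ × ℕ) (T : ℝ) (E : Set Ω) :
    ℝ≥0∞ :=
  ∫⁻ ω in {ω | lpm (fun w => X w ω) p < T} ∩ E,
    ENNReal.ofReal (Real.exp (lpm (fun w => X w ω) p - T)) ∂P

/-- a sequence of events whose conditional probabilities tend to zero -/
def Negl (P : Measure Ω) (X : ℕ × ℕ → Ω → ℝ) (a b l : ℝ) (E : ℕ → Set Ω) : Prop :=
  Tendsto (fun N : ℕ => cmass P X (pt a b N) (l * N) (E N) /
    cmass P X (pt a b N) (l * N) Set.univ) atTop (𝓝 0)

theorem cmass_mono {p : ℕ × ℕ} {T : ℝ} {E F : Set Ω}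
    (h : ∀ᵐ ω ∂P, lpm (fun w => X w ω) p < T → ω ∈ E → ω ∈ F) :
    cmass P X p T E ≤ cmass P X p T F := by
  unfold cmass
  apply lintegral_mono_set'
  filter_upwards [h] with ω hω
  rintro ⟨h1, h2⟩
  exact ⟨h1, hω h1 h2⟩

theorem cmass_union_le {p : ℕ × ℕ} {T : ℝ} {E F : Set Ω} :
    cmass P X p T (E ∪ F) ≤ cmass P X p T E + cmass P X p T F := by
  unfold cmass
  rw [Set.inter_union_distrib_left]
  exact lintegral_union_le _ _ _

theorem lpm_measurable (hm : ∀ w, Measurable (X w)) (p : ℕ × ℕ) :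
    Measurable (fun ω => lpm (fun w => X w ω) p) := by
  unfold lpm
  exact (IsExpField.measurable_lp hm _ _).sub (hm p)

theorem cmass_le (hm : ∀ w, Measurable (X w)) {p : ℕ × ℕ} {T : ℝ} {E : Set Ω} :
    cmass P X p T E ≤ P E := by
  unfold cmass
  have h1 : Measurable (fun ω => lpm (fun w => X w ω) p) := lpm_measurable hm p
  have h2 : MeasurableSet {ω | lpm (fun w => X w ω) p < T} := measurableSet_lt h1 measurable_const
  rw [← Measure.restrict_restrict h2]
  calc ∫⁻ ω in {ω | lpm (fun w => X w ω) p < T},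
        ENNReal.ofReal (Real.exp (lpm (fun w => X w ω) p - T)) ∂(P.restrict E)
      ≤ ∫⁻ ω in {ω | lpm (fun w => X w ω) p < T}, 1 ∂(P.restrict E) := by
        apply setLIntegral_mono measurable_const
        intro ω hω
        rw [← ENNReal.ofReal_one]
        apply ENNReal.ofReal_le_ofReal
        rw [Real.exp_le_one_iff]
        simp only [Set.mem_ofPred_eq] at hω
        linarith
    _ ≤ ∫⁻ ω, 1 ∂(P.restrict E) := setLIntegral_le_lintegral _ _
    _ = P E := by simp

theorem Negl.mono {a b l : ℝ} {E F : ℕ → Set Ω} (hF : Negl P X a b l F)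
    (h : ∀ᶠ N : ℕ in atTop, ∀ᵐ ω ∂P, lpm (fun w => X w ω) (pt a b N) < l * N →
      ω ∈ E N → ω ∈ F N) : Negl P X a b l E := by
  unfold Negl at hF ⊢
  refine tendsto_of_tendsto_of_tendsto_of_le_of_le' tendsto_const_nhds hF
    (Eventually.of_forall fun _ => zero_le) ?_
  filter_upwards [h] with N hN
  exact ENNReal.div_le_div_right (cmass_mono hN) _

theorem Negl.union {a b l : ℝ} {E F : ℕ → Set Ω} (hE : Negl P X a b l E)
    (hF : Negl P X a b l F) : Negl P X a b l (fun N => E N ∪ F N) := by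
  unfold Negl at hE hF ⊢
  have h := hE.add hF
  rw [add_zero] at h
  refine tendsto_of_tendsto_of_tendsto_of_le_of_le' tendsto_const_nhds h
    (Eventually.of_forall fun _ => zero_le) (Eventually.of_forall fun N => ?_)
  simp only
  rw [← ENNReal.add_div]
  exact ENNReal.div_le_div_right cmass_union_le _

variable [IsProbabilityMeasure P]

theorem cmass_lower (h : IsExpField P X) {a b l : ℝ} (ha : 0 < a) (hb : 0 < b)
    (hl : shp a b < l) {δ : ℝ} (hδ : 0 < δ) :
    ∀ᶠ N : ℕ in atTop, ENNReal.ofReal (Real.exp (-(N * (rate a b l + δ)))) ≤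
      cmass P X (pt a b N) (l * N) Set.univ := by
  filter_upwards [density_lower h ha hb hl hδ] with N hN
  unfold cmass
  rwa [Set.inter_univ]

theorem negl_of_exp (h : IsExpField P X) {a b l : ℝ} (ha : 0 < a) (hb : 0 < b)
    (hl : shp a b < l) {c : ℝ} (hc : 0 < c) {E : ℕ → Set Ω}
    (hE : ∀ᶠ N : ℕ in atTop, cmass P X (pt a b N) (l * N) (E N) ≤
      ENNReal.ofReal (Real.exp (-(N * (rate a b l + c))))) : Negl P X a b l E := by
  unfold Negl
  have h1 : Tendsto (fun N : ℕ => ENNReal.ofReal (Real.exp (-(N * (c / 2))))) atTop (𝓝 0) := by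
    rw [← ENNReal.ofReal_zero]
    apply ENNReal.tendsto_ofReal
    refine Real.tendsto_exp_atBot.comp ?_
    rw [tendsto_neg_atBot_iff]
    exact tendsto_natCast_atTop_atTop.atTop_mul_const (by linarith)
  refine tendsto_of_tendsto_of_tendsto_of_le_of_le' tendsto_const_nhds h1
    (Eventually.of_forall fun _ => zero_le) ?_
  filter_upwards [hE, cmass_lower h ha hb hl (half_pos hc)] with N h2 h3
  calc cmass P X (pt a b N) (l * N) (E N) / cmass P X (pt a b N) (l * N) Set.univ
      ≤ ENNReal.ofReal (Real.exp (-(N * (rate a b l + c)))) /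
        ENNReal.ofReal (Real.exp (-(N * (rate a b l + c / 2)))) := ENNReal.div_le_div h2 h3
    _ = ENNReal.ofReal (Real.exp (-(N * (c / 2)))) := by
        rw [← ENNReal.ofReal_div_of_pos (Real.exp_pos _), ← Real.exp_sub]
        congr 2
        ring

theorem negl_of_super (h : IsExpField P X) {a b l : ℝ} (ha : 0 < a) (hb : 0 < b)
    (hl : shp a b < l) {E : ℕ → Set Ω}
    (hE : ∀ K : ℝ, ∀ᶠ N : ℕ in atTop, P (E N) ≤ ENNReal.ofReal (Real.exp (-(K * N)))) :
    Negl P X a b l E := by
  refine negl_of_exp h ha hb hl one_pos ?_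
  filter_upwards [hE (rate a b l + 1)] with N hN
  refine (cmass_le h.meas).trans (hN.trans ?_)
  rw [mul_comm]

omit [IsProbabilityMeasure P] in
theorem negl_of_indep {a b l : ℝ} {G : ℕ → Ω → ℝ} {c : ℕ → ℝ} (hm : ∀ w, Measurable (X w))
    (hG : ∀ N, Measurable (G N))
    (hi : ∀ᶠ N : ℕ in atTop, IndepFun (fun ω => lpm (fun w => X w ω) (pt a b N)) (G N) P)
    (h0 : Tendsto (fun N => P {ω | c N < G N ω}) atTop (𝓝 0)) :
    Negl P X a b l (fun N => {ω | c N < G N ω}) := by
  unfold Negl
  refine tendsto_of_tendsto_of_tendsto_of_le_of_le' tendsto_const_nhds h0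
    (Eventually.of_forall fun _ => zero_le) ?_
  filter_upwards [hi] with N hN
  set M : Ω → ℝ := fun ω => lpm (fun w => X w ω) (pt a b N) with hM
  have hMm : Measurable M := lpm_measurable hm _
  set T : ℝ := l * N
  have e1 : ∀ E : Set Ω, MeasurableSet E → cmass P X (pt a b N) T E =
      ∫⁻ ω, (Set.Iio T).indicator (fun s => ENNReal.ofReal (Real.exp (s - T))) (M ω) *
        E.indicator 1 ω ∂P := by
    intro E hE
    unfold cmass
    rw [← lintegral_indicator ((measurableSet_lt hMm measurable_const).inter hE)]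
    congr 1
    funext ω
    by_cases h1 : M ω < T <;> by_cases h2 : ω ∈ E <;>
      simp [Set.indicator, h1, h2, hM]
  have hB : MeasurableSet {ω | c N < G N ω} := measurableSet_lt measurable_const (hG N)
  have hf : Measurable ((Set.Iio T).indicator (fun s => ENNReal.ofReal (Real.exp (s - T)))) :=
    Measurable.indicator (by fun_prop) measurableSet_Iio
  have hg : Measurable ((Set.Ioi (c N)).indicator (1 : ℝ → ℝ≥0∞)) :=
    Measurable.indicator measurable_const measurableSet_Ioi
  have e2 : cmass P X (pt a b N) T {ω | c N < G N ω} =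
      cmass P X (pt a b N) T Set.univ * P {ω | c N < G N ω} := by
    rw [e1 _ hB, e1 _ MeasurableSet.univ]
    have h3 := lintegral_mul_eq_lintegral_mul_lintegral_of_indepFun (μ := P)
      (f := fun ω => (Set.Iio T).indicator (fun s => ENNReal.ofReal (Real.exp (s - T))) (M ω))
      (g := fun ω => (Set.Ioi (c N)).indicator (1 : ℝ → ℝ≥0∞) (G N ω))
      (hf.comp hMm) (hg.comp (hG N)) (hN.comp hf hg)
    have e3 : ∀ ω, ({ω | c N < G N ω} : Set Ω).indicator (1 : Ω → ℝ≥0∞) ω =
        (Set.Ioi (c N)).indicator (1 : ℝ → ℝ≥0∞) (G N ω) := by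
      intro ω; by_cases h1 : c N < G N ω <;> simp [Set.indicator, h1]
    have e4 : ∫⁻ ω, (Set.Ioi (c N)).indicator (1 : ℝ → ℝ≥0∞) (G N ω) ∂P =
        P {ω | c N < G N ω} := by
      simp only [← e3]
      exact lintegral_indicator_one hB
    simp only [e3]
    simp only [Pi.mul_apply] at h3
    rw [h3, e4]
    simp
  rw [e2, mul_comm, mul_div_assoc]
  calc P {ω | c N < G N ω} * (cmass P X (pt a b N) T Set.univ / cmass P X (pt a b N) T Set.univ)
      ≤ P {ω | c N < G N ω} * 1 := by gcongr; exact ENNReal.div_self_le_one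
    _ = _ := mul_one _

end Helper97.LPP
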