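import Mathlib

/-!
Lattice paths with steps `(1,0)` and `(0,1)` and last passage times
(combinatorial part, problem MP_6c0a5d_pr).
-/

open Finset

namespace Helper97.LPP

/-- `IsPath p q π`: `π` is the set of sites of a lattice path from `p` to `q`
each of whose steps is `(1,0)` or `(0,1)`. -/
inductive IsPath : ℕ × ℕ → ℕ × ℕ → Finset (ℕ × ℕ) → Prop
  | single (p : ℕ × ℕ) : IsPath p p {p}
  | right {p q : ℕ × ℕ} {π : Finset (ℕ × ℕ)} :
      IsPath p q π → IsPath p (q.1 + 1, q.2) (insert (q.1 + 1, q.2) π)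
  | up {p q : ℕ × ℕ} {π : Finset (ℕ × ℕ)} :
      IsPath p q π → IsPath p (q.1, q.2 + 1) (insert (q.1, q.2 + 1) π)

/-- The last passage time from `p` to `q` in the weights `x`: the largest total weight of a
lattice path from `p` to `q`. -/
noncomputable def lp (x : ℕ × ℕ → ℝ) (p q : ℕ × ℕ) : ℝ :=
  sSup {s | ∃ π, IsPath p q π ∧ s = ∑ w ∈ π, x w}

variable {p q r w : ℕ × ℕ} {π π₁ π₂ : Finset (ℕ × ℕ)}

theorem IsPath.le (h : IsPath p q π) : p ≤ q := by
  induction h with
  | single => exact le_rfl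
  | right _ ih => exact ⟨ih.1.trans (Nat.le_succ _), ih.2⟩
  | up _ ih => exact ⟨ih.1, ih.2.trans (Nat.le_succ _)⟩

theorem IsPath.right_mem (h : IsPath p q π) : q ∈ π := by
  cases h <;> simp

theorem IsPath.left_mem (h : IsPath p q π) : p ∈ π := by
  induction h with
  | single => simp
  | right _ ih => simp [ih]
  | up _ ih => simp [ih]

theorem IsPath.mem_le (h : IsPath p q π) (hw : w ∈ π) : p ≤ w ∧ w ≤ q := by
  induction h with
  | single => simp only [mem_singleton] at hw; subst hw; exact ⟨le_rfl, le_rfl⟩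
  | @right q π h ih =>
      rcases Finset.mem_insert.1 hw with rfl | hw
      · exact ⟨⟨h.le.1.trans (Nat.le_succ _), h.le.2⟩, le_rfl⟩
      · exact ⟨(ih hw).1, (ih hw).2.1.trans (Nat.le_succ _), (ih hw).2.2⟩
  | @up q π h ih =>
      rcases Finset.mem_insert.1 hw with rfl | hw
      · exact ⟨⟨h.le.1, h.le.2.trans (Nat.le_succ _)⟩, le_rfl⟩
      · exact ⟨(ih hw).1, (ih hw).2.1, (ih hw).2.2.trans (Nat.le_succ _)⟩

theorem IsPath.subset (h : IsPath p q π) : π ⊆ Finset.Icc p q := by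
  intro w hw
  exact Finset.mem_Icc.2 (h.mem_le hw)

theorem IsPath.exists (h : p ≤ q) : ∃ π, IsPath p q π := by
  obtain ⟨p1, p2⟩ := p
  obtain ⟨q1, q2⟩ := q
  obtain ⟨h1, h2⟩ := h
  simp only at h1 h2
  obtain ⟨m, rfl⟩ := Nat.exists_eq_add_of_le h1
  obtain ⟨n, rfl⟩ := Nat.exists_eq_add_of_le h2
  have H1 : ∀ m : ℕ, ∃ π, IsPath (p1, p2) (p1 + m, p2) π := by
    intro m
    induction m with
    | zero => exact ⟨_, IsPath.single _⟩
    | succ m ih => obtain ⟨π, hπ⟩ := ih; exact ⟨_, hπ.right⟩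
  have H2 : ∀ n : ℕ, ∃ π, IsPath (p1, p2) (p1 + m, p2 + n) π := by
    intro n
    induction n with
    | zero => exact H1 m
    | succ n ih => obtain ⟨π, hπ⟩ := ih; exact ⟨_, hπ.up⟩
  exact H2 n

theorem IsPath.trans (h₁ : IsPath p w π₁) (h₂ : IsPath w q π₂) : IsPath p q (π₁ ∪ π₂) := by
  induction h₂ with
  | single => 
      have : π₁ ∪ {w} = π₁ := by
        rw [Finset.union_eq_left]; simpa using h₁.right_mem
      rw [this]; exact h₁
  | right _ ih =>
      rw [Finset.union_insert]; exact ih.right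
  | up _ ih =>
      rw [Finset.union_insert]; exact ih.up

theorem IsPath.inter (h₁ : IsPath p w π₁) (h₂ : IsPath w q π₂) : π₁ ∩ π₂ = {w} := by
  ext v
  simp only [Finset.mem_inter, Finset.mem_singleton]
  constructor
  · rintro ⟨hv1, hv2⟩
    exact le_antisymm (h₁.mem_le hv1).2 (h₂.mem_le hv2).1
  · rintro rfl; exact ⟨h₁.right_mem, h₂.left_mem⟩

theorem IsPath.split (h : IsPath p q π) (hw : w ∈ π) :
    ∃ π₁ π₂, IsPath p w π₁ ∧ IsPath w q π₂ ∧ π = π₁ ∪ π₂ := by
  induction h with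
  | single => 
      simp only [mem_singleton] at hw; subst hw
      exact ⟨_, _, IsPath.single _, IsPath.single _, by simp⟩
  | @right q π h ih =>
      rcases Finset.mem_insert.1 hw with rfl | hw
      · exact ⟨_, _, h.right, IsPath.single _, by simp⟩
      · obtain ⟨π₁, π₂, h1, h2, h3⟩ := ih hw
        exact ⟨π₁, _, h1, h2.right, by rw [Finset.union_insert, h3]⟩
  | @up q π h ih =>
      rcases Finset.mem_insert.1 hw with rfl | hw
      · exact ⟨_, _, h.up, IsPath.single _, by simp⟩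
      · obtain ⟨π₁, π₂, h1, h2, h3⟩ := ih hw
        exact ⟨π₁, _, h1, h2.up, by rw [Finset.union_insert, h3]⟩

theorem sum_union (x : ℕ × ℕ → ℝ) (h₁ : IsPath p w π₁) (h₂ : IsPath w q π₂) :
    ∑ v ∈ π₁ ∪ π₂, x v = ∑ v ∈ π₁, x v + ∑ v ∈ π₂, x v - x w := by
  have := Finset.sum_union_inter (f := x) (s₁ := π₁) (s₂ := π₂)
  rw [h₁.inter h₂, Finset.sum_singleton] at this
  linarith

/-- the last site of the path inside the rectangle below `q₀` lies on its top or right side -/
theorem IsPath.exit {q₀ : ℕ × ℕ} (h : IsPath p q π) (hp : p ≤ q₀) (hq : ¬ q ≤ q₀) :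
    ∃ w ∈ π, w ≤ q₀ ∧ (w.1 = q₀.1 ∨ w.2 = q₀.2) := by
  induction h with
  | single => exact absurd hp hq
  | @right q π h ih =>
      by_cases hq' : q ≤ q₀
      · refine ⟨q, Finset.mem_insert_of_mem h.right_mem, hq', Or.inl ?_⟩
        have : ¬ (q.1 + 1 ≤ q₀.1) := fun hh => hq ⟨hh, hq'.2⟩
        have := hq'.1
        omega
      · obtain ⟨w, hw, h1, h2⟩ := ih hq'
        exact ⟨w, Finset.mem_insert_of_mem hw, h1, h2⟩
  | @up q π h ih =>
      by_cases hq' : q ≤ q₀
      · refine ⟨q, Finset.mem_insert_of_mem h.right_mem, hq', Or.inr ?_⟩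
        have : ¬ (q.2 + 1 ≤ q₀.2) := fun hh => hq ⟨hq'.1, hh⟩
        have := hq'.2
        omega
      · obtain ⟨w, hw, h1, h2⟩ := ih hq'
        exact ⟨w, Finset.mem_insert_of_mem hw, h1, h2⟩

/-- crossing from row `j` to row `j+1` -/
theorem IsPath.cross_row {j : ℕ} (h : IsPath p q π) (hp : p.2 ≤ j) (hq : j < q.2) :
    ∃ k π₁ π₂, IsPath p (k, j) π₁ ∧ IsPath (k, j + 1) q π₂ ∧ π = π₁ ∪ π₂ ∧ Disjoint π₁ π₂ := by
  induction h with
  | single => omega
  | @right q π h ih =>
      obtain ⟨k, π₁, π₂, h1, h2, h3, h4⟩ := ih hq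
      refine ⟨k, π₁, _, h1, h2.right, by rw [Finset.union_insert, h3], ?_⟩
      rw [Finset.disjoint_insert_right]
      refine ⟨fun hh => ?_, h4⟩
      have := (h1.mem_le hh).2.2
      simp only at this hq
      omega
  | @up q π h ih =>
      by_cases hj : j < q.2
      · obtain ⟨k, π₁, π₂, h1, h2, h3, h4⟩ := ih hj
        refine ⟨k, π₁, _, h1, h2.up, by rw [Finset.union_insert, h3], ?_⟩
        rw [Finset.disjoint_insert_right]
        refine ⟨fun hh => ?_, h4⟩
        have := (h1.mem_le hh).2.2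
        simp only at this hq
        omega
      · have hj' : q.2 = j := by simp only at hq; omega
        subst hj'
        refine ⟨q.1, π, _, h, IsPath.single _, by rw [Finset.union_comm]; rfl, ?_⟩
        rw [Finset.disjoint_singleton_right]
        intro hh
        have := (h.mem_le hh).2.2
        simp only at this
        omega

/-- crossing from column `i` to column `i+1` -/
theorem IsPath.cross_col {i : ℕ} (h : IsPath p q π) (hp : p.1 ≤ i) (hq : i < q.1) :
    ∃ k π₁ π₂, IsPath p (i, k) π₁ ∧ IsPath (i + 1, k) q π₂ ∧ π = π₁ ∪ π₂ ∧ Disjoint π₁ π₂ := by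
  induction h with
  | single => omega
  | @up q π h ih =>
      obtain ⟨k, π₁, π₂, h1, h2, h3, h4⟩ := ih hq
      refine ⟨k, π₁, _, h1, h2.up, by rw [Finset.union_insert, h3], ?_⟩
      rw [Finset.disjoint_insert_right]
      refine ⟨fun hh => ?_, h4⟩
      have := (h1.mem_le hh).2.1
      simp only at this hq
      omega
  | @right q π h ih =>
      by_cases hj : i < q.1
      · obtain ⟨k, π₁, π₂, h1, h2, h3, h4⟩ := ih hj
        refine ⟨k, π₁, _, h1, h2.right, by rw [Finset.union_insert, h3], ?_⟩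
        rw [Finset.disjoint_insert_right]
        refine ⟨fun hh => ?_, h4⟩
        have := (h1.mem_le hh).2.1
        simp only at this hq
        omega
      · have hj' : q.1 = i := by simp only at hq; omega
        subst hj'
        refine ⟨q.2, π, _, h, IsPath.single _, by rw [Finset.union_comm]; rfl, ?_⟩
        rw [Finset.disjoint_singleton_right]
        intro hh
        have := (h.mem_le hh).2.1
        simp only at this
        omega

/-- a path that ends with an edge -/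
theorem IsPath.trans_up {k j : ℕ} (h₁ : IsPath p (k, j) π₁) (h₂ : IsPath (k, j + 1) q π₂) :
    IsPath p q (π₁ ∪ π₂) ∧ Disjoint π₁ π₂ := by
  constructor
  · have h3 : IsPath p (k, j + 1) (insert (k, j + 1) π₁) := h₁.up
    have h4 := h3.trans h₂
    rwa [Finset.insert_union, ← Finset.union_insert,
      Finset.insert_eq_of_mem h₂.left_mem] at h4
  · rw [Finset.disjoint_left]
    intro v hv1 hv2
    have h3 := (h₁.mem_le hv1).2.2
    have h4 := (h₂.mem_le hv2).1.2
    simp only at h3 h4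
    omega

theorem IsPath.trans_right {i k : ℕ} (h₁ : IsPath p (i, k) π₁) (h₂ : IsPath (i + 1, k) q π₂) :
    IsPath p q (π₁ ∪ π₂) ∧ Disjoint π₁ π₂ := by
  constructor
  · have h3 : IsPath p (i + 1, k) (insert (i + 1, k) π₁) := h₁.right
    have h4 := h3.trans h₂
    rwa [Finset.insert_union, ← Finset.union_insert,
      Finset.insert_eq_of_mem h₂.left_mem] at h4
  · rw [Finset.disjoint_left]
    intro v hv1 hv2
    have h3 := (h₁.mem_le hv1).2.1
    have h4 := (h₂.mem_le hv2).1.1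
    simp only at h3 h4
    omega

/-- translation of paths -/
theorem IsPath.shift (h : IsPath p q π) (c : ℕ × ℕ) :
    IsPath (p + c) (q + c) (π.image (· + c)) := by
  induction h with
  | single => simpa using IsPath.single (p + c)
  | @right q π h ih =>
      have := ih.right
      rw [Finset.image_insert]
      have e : ((q.1 + 1, q.2) : ℕ × ℕ) + c = ((q + c).1 + 1, (q + c).2) := by
        ext <;> simp <;> ring
      rw [e]; exact this
  | @up q π h ih =>
      have := ih.up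
      rw [Finset.image_insert]
      have e : ((q.1, q.2 + 1) : ℕ × ℕ) + c = ((q + c).1, (q + c).2 + 1) := by
        ext <;> simp <;> ring
      rw [e]; exact this

theorem IsPath.unshift {c : ℕ × ℕ} (h : IsPath (p + c) r π) :
    ∃ q σ, r = q + c ∧ IsPath p q σ ∧ π = σ.image (· + c) := by
  induction h with
  | single => exact ⟨p, {p}, rfl, IsPath.single p, by simp⟩
  | @right q' π' h ih =>
      obtain ⟨q, σ, h1, h2, h3⟩ := ih
      refine ⟨(q.1 + 1, q.2), _, ?_, h2.right, ?_⟩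
      · rw [h1]; ext <;> simp <;> ring
      · rw [Finset.image_insert, h3, h1]
        congr 1
        ext <;> simp <;> ring
  | @up q' π' h ih =>
      obtain ⟨q, σ, h1, h2, h3⟩ := ih
      refine ⟨(q.1, q.2 + 1), _, ?_, h2.up, ?_⟩
      · rw [h1]; ext <;> simp <;> ring
      · rw [Finset.image_insert, h3, h1]
        congr 1
        ext <;> simp <;> ring

/-- reflection of paths -/
theorem IsPath.swap (h : IsPath p q π) : IsPath p.swap q.swap (π.image Prod.swap) := by
  induction h with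
  | single => simpa using IsPath.single p.swap
  | @right q π h ih => rw [Finset.image_insert]; exact ih.up
  | @up q π h ih => rw [Finset.image_insert]; exact ih.right

/-! ### Last passage times -/

theorem finite_paths (p q : ℕ × ℕ) : {π | IsPath p q π}.Finite := by
  refine Set.Finite.subset (Finset.finite_toSet (Finset.Icc p q).powerset) ?_
  intro π hπ
  exact Finset.mem_coe.2 (Finset.mem_powerset.2 (IsPath.subset hπ))

/-- all paths from `p` to `q` -/
noncomputable def paths (p q : ℕ × ℕ) : Finset (Finset (ℕ × ℕ)) := (finite_paths p q).toFinset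

@[simp] theorem mem_paths : π ∈ paths p q ↔ IsPath p q π := by simp [paths]

theorem paths_nonempty (h : p ≤ q) : (paths p q).Nonempty := by
  obtain ⟨π, hπ⟩ := IsPath.exists h
  exact ⟨π, by simpa using hπ⟩

theorem lp_set_eq (x : ℕ × ℕ → ℝ) (p q : ℕ × ℕ) :
    {s | ∃ π, IsPath p q π ∧ s = ∑ w ∈ π, x w} = (fun π => ∑ w ∈ π, x w) '' (paths p q) := by
  ext s
  simp only [Set.mem_ofPred_eq, Set.mem_image, Finset.mem_coe, mem_paths]
  constructor
  · rintro ⟨π, h, rfl⟩; exact ⟨π, h, rfl⟩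
  · rintro ⟨π, h, rfl⟩; exact ⟨π, h, rfl⟩

theorem lp_eq_sup' (x : ℕ × ℕ → ℝ) (h : p ≤ q) :
    lp x p q = (paths p q).sup' (paths_nonempty h) (fun π => ∑ w ∈ π, x w) := by
  rw [lp, lp_set_eq, Finset.sup'_eq_csSup_image]

theorem le_lp (x : ℕ × ℕ → ℝ) (h : IsPath p q π) : ∑ w ∈ π, x w ≤ lp x p q := by
  rw [lp_eq_sup' x h.le]
  exact Finset.le_sup' (fun π => ∑ w ∈ π, x w) (by simpa using h)

theorem exists_lp (x : ℕ × ℕ → ℝ) (h : p ≤ q) :
    ∃ π, IsPath p q π ∧ lp x p q = ∑ w ∈ π, x w := by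
  rw [lp_eq_sup' x h]
  obtain ⟨π, h1, h2⟩ := Finset.exists_mem_eq_sup' (paths_nonempty h) (fun π => ∑ w ∈ π, x w)
  exact ⟨π, by simpa using h1, h2⟩

theorem lp_le (x : ℕ × ℕ → ℝ) (h : p ≤ q) {c : ℝ}
    (hc : ∀ π, IsPath p q π → ∑ w ∈ π, x w ≤ c) : lp x p q ≤ c := by
  obtain ⟨π, h1, h2⟩ := exists_lp x h
  rw [h2]; exact hc π h1

@[simp] theorem lp_self (x : ℕ × ℕ → ℝ) (p : ℕ × ℕ) : lp x p p = x p := by
  apply le_antisymm
  · refine lp_le x le_rfl ?_
    intro π hπ
    have : π = {p} := by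
      apply Finset.Subset.antisymm
      · intro v hv
        have := hπ.mem_le hv
        simpa using le_antisymm this.2 this.1
      · simpa using hπ.left_mem
    rw [this]; simp
  · simpa using le_lp x (IsPath.single p)

theorem lp_add_le (x : ℕ × ℕ → ℝ) (h₁ : p ≤ w) (h₂ : w ≤ q) :
    lp x p w + lp x w q - x w ≤ lp x p q := by
  obtain ⟨π₁, h1, h2⟩ := exists_lp x h₁
  obtain ⟨π₂, h3, h4⟩ := exists_lp x h₂
  rw [h2, h4, ← sum_union x h1 h3]
  exact le_lp x (h1.trans h3)

theorem lp_up_le (x : ℕ × ℕ → ℝ) {k j : ℕ} (h₁ : p ≤ (k, j)) (h₂ : (k, j + 1) ≤ q) :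
    lp x p (k, j) + lp x (k, j + 1) q ≤ lp x p q := by
  obtain ⟨π₁, h1, h2⟩ := exists_lp x h₁
  obtain ⟨π₂, h3, h4⟩ := exists_lp x h₂
  obtain ⟨h5, h6⟩ := h1.trans_up h3
  rw [h2, h4, ← Finset.sum_union h6]
  exact le_lp x h5

theorem lp_right_le (x : ℕ × ℕ → ℝ) {i k : ℕ} (h₁ : p ≤ (i, k)) (h₂ : (i + 1, k) ≤ q) :
    lp x p (i, k) + lp x (i + 1, k) q ≤ lp x p q := by
  obtain ⟨π₁, h1, h2⟩ := exists_lp x h₁
  obtain ⟨π₂, h3, h4⟩ := exists_lp x h₂
  obtain ⟨h5, h6⟩ := h1.trans_right h3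
  rw [h2, h4, ← Finset.sum_union h6]
  exact le_lp x h5

/-- the last passage time uses only the weights in the rectangle -/
theorem lp_congr {x y : ℕ × ℕ → ℝ} (h : ∀ w, p ≤ w → w ≤ q → x w = y w) :
    lp x p q = lp y p q := by
  unfold lp
  congr 1
  ext s
  constructor
  · rintro ⟨π, h1, rfl⟩
    exact ⟨π, h1, Finset.sum_congr rfl fun w hw => h w (h1.mem_le hw).1 (h1.mem_le hw).2⟩
  · rintro ⟨π, h1, rfl⟩
    exact ⟨π, h1, Finset.sum_congr rfl fun w hw => (h w (h1.mem_le hw).1 (h1.mem_le hw).2).symm⟩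

theorem lp_shift (x : ℕ × ℕ → ℝ) (p q c : ℕ × ℕ) :
    lp x (p + c) (q + c) = lp (fun w => x (w + c)) p q := by
  unfold lp
  congr 1
  ext s
  constructor
  · rintro ⟨π, h1, rfl⟩
    obtain ⟨q', σ, h2, h3, h4⟩ := h1.unshift
    have : q = q' := add_right_cancel h2
    subst this
    refine ⟨σ, h3, ?_⟩
    rw [h4, Finset.sum_image]
    intro a _ b _ hab
    exact add_right_cancel hab
  · rintro ⟨π, h1, rfl⟩
    refine ⟨_, h1.shift c, ?_⟩
    rw [Finset.sum_image]
    intro a _ b _ hab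
    exact add_right_cancel hab

theorem lp_swap (x : ℕ × ℕ → ℝ) (p q : ℕ × ℕ) :
    lp x p.swap q.swap = lp (fun w => x w.swap) p q := by
  unfold lp
  congr 1
  ext s
  constructor
  · rintro ⟨π, h1, rfl⟩
    refine ⟨_, by simpa using h1.swap, ?_⟩
    rw [Finset.sum_image (fun a _ b _ hab => Prod.swap_injective hab)]
    simp
  · rintro ⟨π, h1, rfl⟩
    refine ⟨_, h1.swap, ?_⟩
    rw [Finset.sum_image (fun a _ b _ hab => Prod.swap_injective hab)]

/-- for nonnegative weights larger rectangles have larger passage times -/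
theorem lp_mono_rect {x : ℕ × ℕ → ℝ} (hx : ∀ w, 0 ≤ x w) {p' q' : ℕ × ℕ} (h₁ : p ≤ p')
    (h₂ : p' ≤ q') (h₃ : q' ≤ q) : lp x p' q' ≤ lp x p q := by
  obtain ⟨π, h1, h2⟩ := exists_lp x h₂
  obtain ⟨π₁, h3⟩ := IsPath.exists h₁
  obtain ⟨π₂, h4⟩ := IsPath.exists h₃
  rw [h2]
  refine le_trans ?_ (le_lp x ((h3.trans h1).trans h4))
  refine Finset.sum_le_sum_of_subset_of_nonneg ?_ (fun w _ _ => hx w)
  intro v hv
  simp [hv]

theorem lp_nonneg {x : ℕ × ℕ → ℝ} (hx : ∀ w, 0 ≤ x w) (h : p ≤ q) : 0 ≤ lp x p q := by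
  obtain ⟨π, h1, h2⟩ := exists_lp x h
  rw [h2]; exact Finset.sum_nonneg fun w _ => hx w

theorem lp_mono_weight {x y : ℕ × ℕ → ℝ} (h : p ≤ q) (hxy : ∀ w, x w ≤ y w) :
    lp x p q ≤ lp y p q := by
  obtain ⟨π, h1, h2⟩ := exists_lp x h
  rw [h2]
  exact (Finset.sum_le_sum fun w _ => hxy w).trans (le_lp y h1)

theorem lp_measurable (p q : ℕ × ℕ) : Measurable (fun x : ℕ × ℕ → ℝ => lp x p q) := by
  by_cases h : p ≤ q
  · have : (fun x : ℕ × ℕ → ℝ => lp x p q) =
        (paths p q).sup' (paths_nonempty h) (fun π => fun x : ℕ × ℕ → ℝ => ∑ w ∈ π, x w) := by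
      funext x
      rw [lp_eq_sup' x h, Finset.sup'_apply]
    rw [this]
    refine Finset.measurable_sup' (paths_nonempty h) ?_
    intro π _
    exact Finset.measurable_sum _ (fun w _ => measurable_pi_apply w)
  · have : (fun x : ℕ × ℕ → ℝ => lp x p q) = fun _ => 0 := by
      funext x
      unfold lp
      have : {s | ∃ π, IsPath p q π ∧ s = ∑ w ∈ π, x w} = ∅ := by
        ext s
        simp only [Set.mem_ofPred_eq, Set.mem_empty_iff_false, iff_false]
        rintro ⟨π, hπ, _⟩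
        exact h hπ.le
      rw [this, Real.sSup_empty]
    rw [this]; exact measurable_const

/-- removing the last weight -/
theorem lp_update_last (x : ℕ × ℕ → ℝ) (h : p ≤ q) (c : ℝ) :
    lp (Function.update x q c) p q = lp x p q - x q + c := by
  have key : ∀ (x y : ℕ × ℕ → ℝ), (∀ w, w ≠ q → x w = y w) →
      lp x p q - x q ≤ lp y p q - y q := by
    intro x y hxy
    obtain ⟨π, h1, h2⟩ := exists_lp x h
    have h3 : ∑ w ∈ π, x w - x q = ∑ w ∈ π, y w - y q := by
      rw [← Finset.add_sum_erase _ _ h1.right_mem, ← Finset.add_sum_erase _ y h1.right_mem]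
      have : ∑ w ∈ π.erase q, x w = ∑ w ∈ π.erase q, y w :=
        Finset.sum_congr rfl fun w hw => hxy w (Finset.ne_of_mem_erase hw)
      rw [this]; ring
    rw [h2, h3]
    have := le_lp y h1
    linarith
  have h1 := key x (Function.update x q c) (fun w hw => by simp [hw])
  have h2 := key (Function.update x q c) x (fun w hw => by simp [hw])
  simp only [Function.update_self] at h1 h2
  linarith

end Helper97.LPP
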