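import Pool.Agent.Helper97.LPP.Mgf

/-! Exit point inequality for probabilities. -/

open MeasureTheory ProbabilityTheory Finset
open scoped ENNReal

namespace Helper97.LPP

variable {Ω : Type*} [MeasurableSpace Ω] {P : Measure Ω}

theorem IsStatField.ae_pos {Y : ℕ × ℕ → Ω → ℝ} {z : ℝ} (h : IsStatField P Y z) :
    ∀ᵐ ω ∂P, (∀ i, 0 < Y (i + 1, 0) ω) ∧ (∀ j, 0 < Y (0, j + 1) ω) ∧
      ∀ w : ℕ × ℕ, 0 < Y (w + (1, 1)) ω := by
  have h1 : ∀ᵐ ω ∂P, ∀ i, 0 < Y (i + 1, 0) ω := by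
    rw [ae_all_iff]; intro i
    have : ∀ᵐ x ∂(P.map (Y (i + 1, 0))), 0 < x := by rw [h.law_h]; exact expMeasure_ae_pos _
    exact ae_of_ae_map (h.meas _).aemeasurable this
  have h2 : ∀ᵐ ω ∂P, ∀ j, 0 < Y (0, j + 1) ω := by
    rw [ae_all_iff]; intro i
    have : ∀ᵐ x ∂(P.map (Y (0, i + 1))), 0 < x := by rw [h.law_v]; exact expMeasure_ae_pos _
    exact ae_of_ae_map (h.meas _).aemeasurable this
  have h3 := h.bulk.ae_pos
  filter_upwards [h1, h2, h3] with ω a1 a2 a3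
  exact ⟨a1, a2, a3⟩

variable [IsProbabilityMeasure P] {X : ℕ × ℕ → Ω → ℝ}

theorem prob_exit (h : IsExpField P X) {z s θ : ℝ} (hs : 0 < s) (hθ : 0 < θ) (hθz : θ < z)
    (hθz1 : z + θ < 1) (m n k₀ : ℕ) (y₁ y₂ c : ℝ) :
    P {ω | lp (fun w => X w ω) (0, 0) (m, n) ≤ y₁ + y₂ - c} ≤
      ENNReal.ofReal (Real.exp (s * y₁) * (z / (z + s)) ^ (m + 1)) +
      ENNReal.ofReal (Real.exp (s * y₂) * ((1 - z) / (1 - z + s)) ^ (n + 1)) +
      ∑ k ∈ Finset.Ico k₀ (m + 1),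
        ENNReal.ofReal (Real.exp (-(θ * (y₁ + y₂))) * (z / (z - θ)) ^ (k + 1)) *
          emom P X θ (0, 0) (m - k, n) +
      ∑ k ∈ Finset.Ico k₀ (n + 1),
        ENNReal.ofReal (Real.exp (-(θ * (y₁ + y₂))) * ((1 - z) / (1 - z - θ)) ^ (k + 1)) *
          emom P X θ (0, 0) (m, n - k) +
      ENNReal.ofReal (Real.exp (-(θ * c)) * (z / (z - θ)) ^ k₀) +
      ENNReal.ofReal (Real.exp (-(θ * c)) * ((1 - z) / (1 - z - θ)) ^ k₀) := by
  have hz : 0 < z := by linarith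
  have hz1 : z < 1 := by linarith
  obtain ⟨P', hP', hY⟩ := exists_stat hz hz1
  set Y : ℕ × ℕ → (ℕ × ℕ → ℝ) → ℝ := fun w x => x w with hYdef
  set L : ℕ → ℕ → (ℕ × ℕ → ℝ) → ℝ := fun i j ω =>
    lp (fun w => Y w ω) (i + 1, j + 1) (m + 1, n + 1) with hL
  set H : ℕ → (ℕ × ℕ → ℝ) → ℝ := fun k ω => ∑ i ∈ range k, Y (i + 1, 0) ω with hH
  set V : ℕ → (ℕ × ℕ → ℝ) → ℝ := fun k ω => ∑ i ∈ range k, Y (0, i + 1) ω with hV
  set W : (ℕ × ℕ → ℝ) → ℝ := fun ω =>
    GG (fun w => Y w ω) (m + 1) (n + 1) - GG (fun w => Y w ω) (m + 1) 0 with hW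
  have mL : ∀ i j, Measurable (L i j) := fun i j => IsExpField.measurable_lp hY.meas _ _
  have mH : ∀ k, Measurable (H k) := fun k => by simp only [hH, hYdef]; fun_prop
  have mV : ∀ k, Measurable (V k) := fun k => by simp only [hV, hYdef]; fun_prop
  have mW : Measurable W := by
    simp only [hW]
    unfold GG
    have a1 := IsExpField.measurable_lp hY.meas (0, 0) (m + 1, n + 1)
    have a2 := IsExpField.measurable_lp hY.meas (0, 0) (m + 1, 0)
    have a3 := hY.meas (0, 0)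
    fun_prop
  -- transfer
  have h0 : P {ω | lp (fun w => X w ω) (0, 0) (m, n) ≤ y₁ + y₂ - c} =
      P' {ω | L 0 0 ω ≤ y₁ + y₂ - c} := by
    have h1 := hY.bulk.lp_law h (0, 0) (0, 0) m n
    have e1 : (fun ω => lp (fun w => Y (w + (1, 1)) ω) (0, 0) (m, n)) = L 0 0 := by
      funext ω
      rw [← lp_shift (fun w => Y w ω) (0, 0) (m, n) (1, 1)]
      rfl
    simp only [zero_add] at h1
    rw [e1] at h1
    have h2 : ∀ (t : ℝ), P {ω | lp (fun w => X w ω) (0, 0) (m, n) ≤ t} =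
        (P.map (fun ω => lp (fun w => X w ω) (0, 0) (m, n))) (Set.Iic t) := by
      intro t
      rw [Measure.map_apply (IsExpField.measurable_lp h.meas _ _) measurableSet_Iic]
      rfl
    rw [h2, ← h1, Measure.map_apply (mL 0 0) measurableSet_Iic]
    rfl
  rw [h0]
  -- inclusion of events
  have hincl : {ω | L 0 0 ω ≤ y₁ + y₂ - c} ≤ᵐ[P'] ((((({ω | H (m + 1) ω ≤ y₁} ∪
      {ω | W ω ≤ y₂}) ∪
      ⋃ k ∈ Finset.Ico k₀ (m + 1), {ω | y₁ + y₂ ≤ H (k + 1) ω + L k 0 ω}) ∪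
      ⋃ k ∈ Finset.Ico k₀ (n + 1), {ω | y₁ + y₂ ≤ V (k + 1) ω + L 0 k ω}) ∪
      {ω | c ≤ H k₀ ω}) ∪ {ω | c ≤ V k₀ ω} : Set (ℕ × ℕ → ℝ)) := by
    filter_upwards [hY.ae_pos] with ω hpos
    intro hω
    have hω' : L 0 0 ω ≤ y₁ + y₂ - c := hω
    by_contra hcon
    have hcon' : ω ∉ ((((({ω | H (m + 1) ω ≤ y₁} ∪
      {ω | W ω ≤ y₂}) ∪
      ⋃ k ∈ Finset.Ico k₀ (m + 1), {ω | y₁ + y₂ ≤ H (k + 1) ω + L k 0 ω}) ∪
      ⋃ k ∈ Finset.Ico k₀ (n + 1), {ω | y₁ + y₂ ≤ V (k + 1) ω + L 0 k ω}) ∪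
      {ω | c ≤ H k₀ ω}) ∪ {ω | c ≤ V k₀ ω} : Set (ℕ × ℕ → ℝ)) := hcon
    simp only [Set.mem_union, Set.mem_iUnion, Set.mem_ofPred_eq, not_or, not_exists, not_le,
      Finset.mem_Ico] at hcon'
    obtain ⟨⟨⟨⟨⟨c1, c2⟩, c3⟩, c4⟩, c5⟩, c6⟩ := hcon'
    have eH : GG (fun w => Y w ω) (m + 1) 0 = H (m + 1) ω := GG_row _ _
    have eG : GG (fun w => Y w ω) (m + 1) (n + 1) = W ω + H (m + 1) ω := by
      simp only [hW]; rw [eH]; ring
    have eG' : GG (fun w => Y w ω) (m + 1) (n + 1) =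
        lp (fun w => Y w ω) (0, 0) (m + 1, n + 1) - Y (0, 0) ω := rfl
    have mono : ∀ i j, i ≤ m → j ≤ n → L i j ω ≤ L 0 0 ω := by
      intro i j hi hj
      have a1 : L i j ω = lp (fun w => Y (w + (1, 1)) ω) (i, j) (m, n) := by
        rw [← lp_shift (fun w => Y w ω) (i, j) (m, n) (1, 1)]; rfl
      have a2 : L 0 0 ω = lp (fun w => Y (w + (1, 1)) ω) (0, 0) (m, n) := by
        rw [← lp_shift (fun w => Y w ω) (0, 0) (m, n) (1, 1)]; rfl
      rw [a1, a2]
      exact lp_mono_rect (fun w => (hpos.2.2 w).le) (by simp) ⟨hi, hj⟩ le_rfl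
    rcases exit_point (fun w => Y w ω) m n with ⟨k, hk, hk'⟩ | ⟨k, hk, hk'⟩
    · have e5 : H (k + 1) ω + L k 0 ω = GG (fun w => Y w ω) (m + 1) (n + 1) := by
        rw [eG', hk']; simp only [hH, hL, zero_add]; ring
      by_cases hkk : k₀ ≤ k
      · have := c3 k ⟨hkk, by omega⟩
        linarith
      · have h6 : H (k + 1) ω ≤ H k₀ ω :=
          Finset.sum_le_sum_of_subset_of_nonneg (Finset.range_mono (by omega))
            (fun i _ _ => (hpos.1 i).le)
        have := mono k 0 hk (by omega)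
        linarith
    · have e5 : V (k + 1) ω + L 0 k ω = GG (fun w => Y w ω) (m + 1) (n + 1) := by
        rw [eG', hk']; simp only [hV, hL, zero_add]; ring
      by_cases hkk : k₀ ≤ k
      · have := c4 k ⟨hkk, by omega⟩
        linarith
      · have h6 : V (k + 1) ω ≤ V k₀ ω :=
          Finset.sum_le_sum_of_subset_of_nonneg (Finset.range_mono (by omega))
            (fun i _ _ => (hpos.2.1 i).le)
        have := mono 0 k (by omega) hk
        linarith
  refine (measure_mono_ae hincl).trans ?_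
  -- the six bounds
  have b1 : P' {ω | H (m + 1) ω ≤ y₁} ≤
      ENNReal.ofReal (Real.exp (s * y₁) * (z / (z + s)) ^ (m + 1)) := by
    refine (markov_lower (mH _) hs.le y₁).trans (le_of_eq ?_)
    have := row_mgf hY hz (s := -s) (by linarith) (range (m + 1))
    rw [Finset.card_range] at this
    simp only [hH]
    rw [this, ← ENNReal.ofReal_mul (Real.exp_nonneg _), sub_neg_eq_add]
  have b2 : P' {ω | W ω ≤ y₂} ≤
      ENNReal.ofReal (Real.exp (s * y₂) * ((1 - z) / (1 - z + s)) ^ (n + 1)) := by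
    refine (markov_lower mW hs.le y₂).trans (le_of_eq ?_)
    have := col_incr_mgf hY hz hz1 (s := -s) (by linarith) (m + 1) (n + 1)
    simp only [hW]
    rw [this, ← ENNReal.ofReal_mul (Real.exp_nonneg _), sub_neg_eq_add]
  have b3 : P' (⋃ k ∈ Finset.Ico k₀ (m + 1), {ω | y₁ + y₂ ≤ H (k + 1) ω + L k 0 ω}) ≤
      ∑ k ∈ Finset.Ico k₀ (m + 1),
        ENNReal.ofReal (Real.exp (-(θ * (y₁ + y₂))) * (z / (z - θ)) ^ (k + 1)) *
          emom P X θ (0, 0) (m - k, n) := by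
    refine (measure_biUnion_finset_le _ _).trans (Finset.sum_le_sum fun k hk => ?_)
    rw [Finset.mem_Ico] at hk
    have m1 : Measurable (fun ω => H (k + 1) ω + L k 0 ω) := (mH _).add (mL _ _)
    refine (markov_upper m1 hθ.le _).trans (le_of_eq ?_)
    have a1 := indep_mul hY.meas hY.indep (disj_row_bulk (range (k + 1)) k 0 (m + 1, n + 1))
      (meas_row _ θ) (meas_lp_exp (k + 1, 1) (m + 1, n + 1) θ) (local_row _ θ)
      (local_lp_exp (k + 1, 1) (m + 1, n + 1) θ)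
    have a2 := row_mgf hY hz (s := θ) hθz (range (k + 1))
    have a3 := bulk_emom hY h θ k 0 (m - k) n
    have a4 : k + 1 + (m - k) = m + 1 := by omega
    rw [a4, zero_add, add_comm 1 n] at a3
    rw [Finset.card_range] at a2
    have a5 : ∫⁻ ω, ENNReal.ofReal (Real.exp (θ * (H (k + 1) ω + L k 0 ω))) ∂P' =
        ENNReal.ofReal ((z / (z - θ)) ^ (k + 1)) * emom P X θ (0, 0) (m - k, n) := by
      rw [← a3, ← a2]
      unfold emom
      rw [← a1]
      refine lintegral_congr fun ω => ?_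
      rw [mul_add, ofReal_exp_add]
    rw [a5, ← mul_assoc, ← ENNReal.ofReal_mul (Real.exp_nonneg _)]
  have b4 : P' (⋃ k ∈ Finset.Ico k₀ (n + 1), {ω | y₁ + y₂ ≤ V (k + 1) ω + L 0 k ω}) ≤
      ∑ k ∈ Finset.Ico k₀ (n + 1),
        ENNReal.ofReal (Real.exp (-(θ * (y₁ + y₂))) * ((1 - z) / (1 - z - θ)) ^ (k + 1)) *
          emom P X θ (0, 0) (m, n - k) := by
    refine (measure_biUnion_finset_le _ _).trans (Finset.sum_le_sum fun k hk => ?_)
    rw [Finset.mem_Ico] at hk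
    have m1 : Measurable (fun ω => V (k + 1) ω + L 0 k ω) := (mV _).add (mL _ _)
    refine (markov_upper m1 hθ.le _).trans (le_of_eq ?_)
    have a1 := indep_mul hY.meas hY.indep (disj_col_bulk (range (k + 1)) 0 k (m + 1, n + 1))
      (meas_col _ θ) (meas_lp_exp (1, k + 1) (m + 1, n + 1) θ) (local_col _ θ)
      (local_lp_exp (1, k + 1) (m + 1, n + 1) θ)
    have a2 := col_mgf hY hz1 (s := θ) (by linarith) (range (k + 1))
    have a3 := bulk_emom hY h θ 0 k m (n - k)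
    have a4 : k + 1 + (n - k) = n + 1 := by omega
    rw [a4, zero_add, add_comm 1 m] at a3
    rw [Finset.card_range] at a2
    have a5 : ∫⁻ ω, ENNReal.ofReal (Real.exp (θ * (V (k + 1) ω + L 0 k ω))) ∂P' =
        ENNReal.ofReal (((1 - z) / (1 - z - θ)) ^ (k + 1)) * emom P X θ (0, 0) (m, n - k) := by
      rw [← a3, ← a2]
      unfold emom
      rw [← a1]
      refine lintegral_congr fun ω => ?_
      rw [mul_add, ofReal_exp_add]
    rw [a5, ← mul_assoc, ← ENNReal.ofReal_mul (Real.exp_nonneg _)]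
  have b5 : P' {ω | c ≤ H k₀ ω} ≤
      ENNReal.ofReal (Real.exp (-(θ * c)) * (z / (z - θ)) ^ k₀) := by
    refine (markov_upper (mH _) hθ.le c).trans (le_of_eq ?_)
    have := row_mgf hY hz (s := θ) hθz (range k₀)
    rw [Finset.card_range] at this
    simp only [hH]
    rw [this, ← ENNReal.ofReal_mul (Real.exp_nonneg _)]
  have b6 : P' {ω | c ≤ V k₀ ω} ≤
      ENNReal.ofReal (Real.exp (-(θ * c)) * ((1 - z) / (1 - z - θ)) ^ k₀) := by
    refine (markov_upper (mV _) hθ.le c).trans (le_of_eq ?_)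
    have := col_mgf hY hz1 (s := θ) (by linarith) (range k₀)
    rw [Finset.card_range] at this
    simp only [hV]
    rw [this, ← ENNReal.ofReal_mul (Real.exp_nonneg _)]
  refine (measure_union_le _ _).trans (add_le_add ?_ b6)
  refine (measure_union_le _ _).trans (add_le_add ?_ b5)
  refine (measure_union_le _ _).trans (add_le_add ?_ b4)
  refine (measure_union_le _ _).trans (add_le_add ?_ b3)
  exact (measure_union_le _ _).trans (add_le_add b1 b2)

end Helper97.LPP
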