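import Pool.Agent.Helper97.LPP.Defs

/-! Recursions and decompositions for passage times from the origin. -/

open Finset

namespace Helper97.LPP

variable {p q w : ℕ × ℕ} {π : Finset (ℕ × ℕ)}

theorem IsPath.last (h : IsPath p q π) : (q = p ∧ π = {p}) ∨
    (∃ q' π', IsPath p q' π' ∧ q = (q'.1 + 1, q'.2) ∧ π = insert q π') ∨
    (∃ q' π', IsPath p q' π' ∧ q = (q'.1, q'.2 + 1) ∧ π = insert q π') := by
  cases h with
  | single => exact Or.inl ⟨rfl, rfl⟩
  | right h => exact Or.inr (Or.inl ⟨_, _, h, rfl, rfl⟩)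
  | up h => exact Or.inr (Or.inr ⟨_, _, h, rfl, rfl⟩)

theorem sum_insert_right (x : ℕ × ℕ → ℝ) (h : IsPath p q π) :
    ∑ v ∈ insert (q.1 + 1, q.2) π, x v = x (q.1 + 1, q.2) + ∑ v ∈ π, x v := by
  rw [Finset.sum_insert]
  intro hh
  have := (h.mem_le hh).2.1
  simp at this

theorem sum_insert_up (x : ℕ × ℕ → ℝ) (h : IsPath p q π) :
    ∑ v ∈ insert (q.1, q.2 + 1) π, x v = x (q.1, q.2 + 1) + ∑ v ∈ π, x v := by
  rw [Finset.sum_insert]
  intro hh
  have := (h.mem_le hh).2.2
  simp at this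

theorem lp_rec (x : ℕ × ℕ → ℝ) (i j : ℕ) : lp x (0, 0) (i + 1, j + 1) =
    x (i + 1, j + 1) + max (lp x (0, 0) (i, j + 1)) (lp x (0, 0) (i + 1, j)) := by
  apply le_antisymm
  · obtain ⟨π, h1, h2⟩ := exists_lp x (p := (0, 0)) (q := (i + 1, j + 1)) (by simp)
    rw [h2]
    rcases h1.last with ⟨h3, _⟩ | ⟨q', π', h3, h4, h5⟩ | ⟨q', π', h3, h4, h5⟩
    · simp at h3
    · have e1 : q' = (i, j + 1) := by
        rw [Prod.ext_iff] at h4 ⊢; simp only at h4 ⊢; omega
      subst e1
      rw [h5]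
      have := sum_insert_right x h3
      simp only at this
      rw [this]
      have := le_lp x h3
      have := le_max_left (lp x (0, 0) (i, j + 1)) (lp x (0, 0) (i + 1, j))
      linarith
    · have e1 : q' = (i + 1, j) := by
        rw [Prod.ext_iff] at h4 ⊢; simp only at h4 ⊢; omega
      subst e1
      rw [h5]
      have := sum_insert_up x h3
      simp only at this
      rw [this]
      have := le_lp x h3
      have := le_max_right (lp x (0, 0) (i, j + 1)) (lp x (0, 0) (i + 1, j))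
      linarith
  · have h1 := lp_right_le x (p := (0, 0)) (q := (i + 1, j + 1)) (i := i) (k := j + 1)
      (by simp) le_rfl
    have h2 := lp_up_le x (p := (0, 0)) (q := (i + 1, j + 1)) (k := i + 1) (j := j)
      (by simp) le_rfl
    rw [lp_self] at h1 h2
    rcases max_choice (lp x (0, 0) (i, j + 1)) (lp x (0, 0) (i + 1, j)) with h | h <;> rw [h] <;>
      linarith

theorem lp_row (x : ℕ × ℕ → ℝ) (i : ℕ) : lp x (0, 0) (i + 1, 0) =
    x (i + 1, 0) + lp x (0, 0) (i, 0) := by
  apply le_antisymm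
  · obtain ⟨π, h1, h2⟩ := exists_lp x (p := (0, 0)) (q := (i + 1, 0)) (by simp)
    rw [h2]
    rcases h1.last with ⟨h3, _⟩ | ⟨q', π', h3, h4, h5⟩ | ⟨q', π', h3, h4, h5⟩
    · simp at h3
    · have e1 : q' = (i, 0) := by
        rw [Prod.ext_iff] at h4 ⊢; simp only at h4 ⊢; omega
      subst e1
      rw [h5]
      have := sum_insert_right x h3
      simp only at this
      rw [this]
      have := le_lp x h3
      linarith
    · rw [Prod.ext_iff] at h4; simp only at h4; omega
  · have h1 := lp_right_le x (p := (0, 0)) (q := (i + 1, 0)) (i := i) (k := 0)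
      (by simp) le_rfl
    rw [lp_self] at h1
    linarith

theorem lp_col (x : ℕ × ℕ → ℝ) (j : ℕ) : lp x (0, 0) (0, j + 1) =
    x (0, j + 1) + lp x (0, 0) (0, j) := by
  have h := lp_row (fun w => x w.swap) j
  have h1 := lp_swap x (0, 0) (j + 1, 0)
  have h2 := lp_swap x (0, 0) (j, 0)
  simp only [Prod.swap_prod_mk] at h h1 h2
  rw [h1, h2, h]

theorem lp_row_sum (x : ℕ × ℕ → ℝ) (k : ℕ) : lp x (0, 0) (k, 0) =
    x (0, 0) + ∑ i ∈ range k, x (i + 1, 0) := by
  induction k with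
  | zero => simp
  | succ k ih => rw [lp_row, ih, Finset.sum_range_succ]; ring

theorem lp_col_sum (x : ℕ × ℕ → ℝ) (k : ℕ) : lp x (0, 0) (0, k) =
    x (0, 0) + ∑ j ∈ range k, x (0, j + 1) := by
  induction k with
  | zero => simp
  | succ k ih => rw [lp_col, ih, Finset.sum_range_succ]; ring

/-- entering the bulk from the horizontal axis -/
theorem enter_row_le (x : ℕ × ℕ → ℝ) {k m n : ℕ} (hk : k ≤ m) :
    x (0, 0) + ∑ i ∈ range (k + 1), x (i + 1, 0) + lp x (k + 1, 1) (m + 1, n + 1) ≤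
      lp x (0, 0) (m + 1, n + 1) := by
  have := lp_up_le x (p := (0, 0)) (q := (m + 1, n + 1)) (k := k + 1) (j := 0) (by simp)
    ⟨by simpa using hk, by simp⟩
  rw [lp_row_sum] at this
  simpa using this

/-- entering the bulk from the vertical axis -/
theorem enter_col_le (x : ℕ × ℕ → ℝ) {k m n : ℕ} (hk : k ≤ n) :
    x (0, 0) + ∑ i ∈ range (k + 1), x (0, i + 1) + lp x (1, k + 1) (m + 1, n + 1) ≤
      lp x (0, 0) (m + 1, n + 1) := by
  have := lp_right_le x (p := (0, 0)) (q := (m + 1, n + 1)) (i := 0) (k := k + 1) (by simp)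
    ⟨by simp, by simpa using hk⟩
  rw [lp_col_sum] at this
  simpa using this

/-- the exit point of an optimal path from the axes -/
theorem exit_point (x : ℕ × ℕ → ℝ) (m n : ℕ) :
    (∃ k ≤ m, lp x (0, 0) (m + 1, n + 1) =
      x (0, 0) + ∑ i ∈ range (k + 1), x (i + 1, 0) + lp x (k + 1, 1) (m + 1, n + 1)) ∨
    (∃ k ≤ n, lp x (0, 0) (m + 1, n + 1) =
      x (0, 0) + ∑ i ∈ range (k + 1), x (0, i + 1) + lp x (1, k + 1) (m + 1, n + 1)) := by
  obtain ⟨π, h1, h2⟩ := exists_lp x (p := (0, 0)) (q := (m + 1, n + 1)) (by simp)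
  obtain ⟨k, π₁, π₂, h3, h4, h5, h6⟩ := h1.cross_row (j := 0) (by simp) (by simp)
  rcases Nat.eq_zero_or_pos k with hk | hk
  · subst hk
    right
    obtain ⟨k', σ₁, σ₂, h7, h8, h9, h10⟩ := h4.cross_col (i := 0) (by simp) (by simp)
    obtain ⟨k'', rfl⟩ : ∃ k'', k' = k'' + 1 := by
      have := h7.le.2; simp only at this; exact ⟨k' - 1, by omega⟩
    have hk'' : k'' ≤ n := by have := h8.le.2; simpa using this
    refine ⟨k'', hk'', le_antisymm ?_ (enter_col_le x hk'')⟩
    have e1 := le_lp x h8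
    have e2 := le_lp x (h3.trans_up h7).1
    rw [Finset.sum_union (h3.trans_up h7).2, lp_col_sum] at e2
    rw [h2, h5, Finset.sum_union h6, h9, Finset.sum_union h10]
    simp only [zero_add] at e1 e2 ⊢
    linarith
  · left
    obtain ⟨k'', rfl⟩ : ∃ k'', k = k'' + 1 := ⟨k - 1, by omega⟩
    have hk'' : k'' ≤ m := by have := h4.le.1; simpa using this
    refine ⟨k'', hk'', le_antisymm ?_ (enter_row_le x hk'')⟩
    have e1 := le_lp x h4
    have e2 := le_lp x h3
    rw [lp_row_sum] at e2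
    rw [h2, h5, Finset.sum_union h6]
    simp only [zero_add] at e1
    linarith

end Helper97.LPP
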