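import Pool.Agent.Helper97.LPP.Burke

/-! Consequences of the Burke property. -/

open MeasureTheory ProbabilityTheory Finset
open scoped ENNReal

namespace Helper97.LPP

variable {Ω : Type*} [MeasurableSpace Ω] {P : Measure Ω}

theorem exists_stat {z : ℝ} (hz : 0 < z) (hz1 : z < 1) :
    ∃ P' : Measure (ℕ × ℕ → ℝ), IsProbabilityMeasure P' ∧ IsStatField P' (fun w x => x w) z := by
  classical
  set r : ℕ × ℕ → ℝ := fun w => if w.2 = 0 then z else if w.1 = 0 then 1 - z else 1 with hr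
  have hr0 : ∀ w, 0 < r w := by
    intro w
    simp only [hr]
    split_ifs <;> linarith
  haveI : ∀ w, IsProbabilityMeasure (expMeasure (r w)) :=
    fun w => isProbabilityMeasure_expMeasure (hr0 w)
  refine ⟨Measure.infinitePi fun w => expMeasure (r w), inferInstance, ?_, ?_, ?_, ?_, ?_⟩
  · intro w; exact measurable_pi_apply w
  · exact iIndepFun_infinitePi (X := fun _ x => x) (fun _ => measurable_id)
  · intro i
    rw [Measure.infinitePi_map_eval]; simp [hr]
  · intro j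
    rw [Measure.infinitePi_map_eval]; simp [hr]
  · intro i j
    rw [Measure.infinitePi_map_eval]; simp [hr]

theorem IsStatField.bulk {Y : ℕ × ℕ → Ω → ℝ} {z : ℝ} (h : IsStatField P Y z) :
    IsExpField P (fun w => Y (w + (1, 1))) where
  meas _ := h.meas _
  indep := h.indep.precomp (g := fun w : ℕ × ℕ => w + (1, 1)) (add_left_injective _)
  law w := h.law_b w.1 w.2

/-- exponential moments of sums of independent exponential variables -/
theorem sum_mgf {V : ℕ → Ω → ℝ} (hm : ∀ j, Measurable (V j)) (hi : iIndepFun V P) {r s : ℝ}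
    (hr : 0 < r) (hs : s < r) (S : Finset ℕ) (hl : ∀ j ∈ S, P.map (V j) = expMeasure r) :
    ∫⁻ ω, ENNReal.ofReal (Real.exp (s * ∑ j ∈ S, V j ω)) ∂P =
      ENNReal.ofReal ((r / (r - s)) ^ #S) := by
  have h1 : ∀ ω, ENNReal.ofReal (Real.exp (s * ∑ j ∈ S, V j ω)) =
      ∏ j ∈ S, ENNReal.ofReal (Real.exp (s * V j ω)) := by
    intro ω
    rw [Finset.mul_sum, Real.exp_sum, ENNReal.ofReal_prod_of_nonneg (fun _ _ => Real.exp_nonneg _)]
  simp_rw [h1]
  rw [lintegral_prod_eq_prod_lintegral_of_indepFun S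
    (fun j ω => ENNReal.ofReal (Real.exp (s * V j ω)))
    (hi.comp (fun _ x => ENNReal.ofReal (Real.exp (s * x))) (fun _ => by fun_prop))
    (fun j => by have := hm j; fun_prop)]
  have h2 : ∀ j ∈ S, ∫⁻ ω, ENNReal.ofReal (Real.exp (s * V j ω)) ∂P =
      ENNReal.ofReal (r / (r - s)) := by
    intro j hj
    rw [← lintegral_exp_exp hr hs, ← hl j hj, lintegral_map (by fun_prop) (hm j)]
  rw [Finset.prod_congr rfl h2, Finset.prod_const, ENNReal.ofReal_pow]
  have : 0 < r - s := by linarith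
  positivity

/-- exponential Markov inequality, upper tail -/
theorem markov_upper {f : Ω → ℝ} (hf : Measurable f) {θ : ℝ} (hθ : 0 ≤ θ) (c : ℝ) :
    P {ω | c ≤ f ω} ≤
      ENNReal.ofReal (Real.exp (-(θ * c))) * ∫⁻ ω, ENNReal.ofReal (Real.exp (θ * f ω)) ∂P := by
  have hmeas : MeasurableSet {ω | c ≤ f ω} := measurableSet_le measurable_const hf
  rw [← lintegral_indicator_one hmeas, ← lintegral_const_mul _ (by fun_prop)]
  refine lintegral_mono fun ω => ?_
  by_cases h : c ≤ f ω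
  · rw [Set.indicator_of_mem (by exact h), ← ENNReal.ofReal_mul (Real.exp_nonneg _),
      ← Real.exp_add]
    simp only [Pi.one_apply]
    rw [← ENNReal.ofReal_one]
    refine ENNReal.ofReal_le_ofReal (Real.one_le_exp ?_)
    nlinarith
  · rw [Set.indicator_of_notMem (by exact h)]; exact zero_le

/-- exponential Markov inequality, lower tail -/
theorem markov_lower {f : Ω → ℝ} (hf : Measurable f) {θ : ℝ} (hθ : 0 ≤ θ) (c : ℝ) :
    P {ω | f ω ≤ c} ≤
      ENNReal.ofReal (Real.exp (θ * c)) * ∫⁻ ω, ENNReal.ofReal (Real.exp (-θ * f ω)) ∂P := by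
  have h := markov_upper (P := P) (f := fun ω => - f ω) (by fun_prop) hθ (-c)
  have e1 : {ω | -c ≤ -f ω} = {ω | f ω ≤ c} := by ext; simp
  rw [e1] at h
  convert h using 3
  · ring_nf
  · ring_nf

/-- the horizontal axis -/
def rowAx (S : Finset ℕ) : Finset (ℕ × ℕ) := S.image (fun i => (i + 1, 0))
/-- the vertical axis -/
def colAx (S : Finset ℕ) : Finset (ℕ × ℕ) := S.image (fun i => (0, i + 1))

theorem local_row (S : Finset ℕ) (θ : ℝ) : Local (rowAx S)
    (fun x : ℕ × ℕ → ℝ => ENNReal.ofReal (Real.exp (θ * ∑ i ∈ S, x (i + 1, 0)))) := by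
  intro x y h
  have : ∑ i ∈ S, x (i + 1, 0) = ∑ i ∈ S, y (i + 1, 0) :=
    Finset.sum_congr rfl fun i hi => h _ (Finset.mem_image_of_mem _ hi)
  simp only [this]

theorem local_col (S : Finset ℕ) (θ : ℝ) : Local (colAx S)
    (fun x : ℕ × ℕ → ℝ => ENNReal.ofReal (Real.exp (θ * ∑ i ∈ S, x (0, i + 1)))) := by
  intro x y h
  have : ∑ i ∈ S, x (0, i + 1) = ∑ i ∈ S, y (0, i + 1) :=
    Finset.sum_congr rfl fun i hi => h _ (Finset.mem_image_of_mem _ hi)
  simp only [this]

theorem local_lp_exp (p q : ℕ × ℕ) (θ : ℝ) : Local (Finset.Icc p q)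
    (fun x => ENNReal.ofReal (Real.exp (θ * lp x p q))) := by
  intro x y h
  have := local_lp p q x y h
  simp only at this ⊢
  rw [this]

theorem meas_lp_exp (p q : ℕ × ℕ) (θ : ℝ) :
    Measurable (fun x => ENNReal.ofReal (Real.exp (θ * lp x p q))) := by
  have := lp_measurable p q
  fun_prop

theorem meas_row (S : Finset ℕ) (θ : ℝ) : Measurable
    (fun x : ℕ × ℕ → ℝ => ENNReal.ofReal (Real.exp (θ * ∑ i ∈ S, x (i + 1, 0)))) := by
  fun_prop

theorem meas_col (S : Finset ℕ) (θ : ℝ) : Measurable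
    (fun x : ℕ × ℕ → ℝ => ENNReal.ofReal (Real.exp (θ * ∑ i ∈ S, x (0, i + 1)))) := by
  fun_prop

theorem disj_row_bulk (S : Finset ℕ) (i j : ℕ) (q : ℕ × ℕ) :
    Disjoint (rowAx S) (Finset.Icc (i + 1, j + 1) q) := by
  rw [Finset.disjoint_left]
  intro w hw hw'
  obtain ⟨k, _, rfl⟩ := Finset.mem_image.1 hw
  have := (Finset.mem_Icc.1 hw').1.2
  simp at this

theorem disj_col_bulk (S : Finset ℕ) (i j : ℕ) (q : ℕ × ℕ) :
    Disjoint (colAx S) (Finset.Icc (i + 1, j + 1) q) := by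
  rw [Finset.disjoint_left]
  intro w hw hw'
  obtain ⟨k, _, rfl⟩ := Finset.mem_image.1 hw
  have := (Finset.mem_Icc.1 hw').1.1
  simp at this

theorem disj_row_col (S T : Finset ℕ) : Disjoint (rowAx S) (colAx T) := by
  rw [Finset.disjoint_left]
  intro w hw hw'
  obtain ⟨k, _, rfl⟩ := Finset.mem_image.1 hw
  obtain ⟨k', _, h⟩ := Finset.mem_image.1 hw'
  simp at h

variable {Y : ℕ × ℕ → Ω → ℝ} {z : ℝ}

theorem row_mgf (h : IsStatField P Y z) (hz : 0 < z) {s : ℝ} (hs : s < z) (S : Finset ℕ) :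
    ∫⁻ ω, ENNReal.ofReal (Real.exp (s * ∑ i ∈ S, Y (i + 1, 0) ω)) ∂P =
      ENNReal.ofReal ((z / (z - s)) ^ #S) :=
  sum_mgf (fun j => h.meas _) (h.indep.precomp (g := fun i : ℕ => ((i + 1, 0) : ℕ × ℕ))
    (fun a b hab => by simpa using hab)) hz hs S (fun j _ => h.law_h j)

theorem col_mgf (h : IsStatField P Y z) (hz1 : z < 1) {s : ℝ} (hs : s < 1 - z) (S : Finset ℕ) :
    ∫⁻ ω, ENNReal.ofReal (Real.exp (s * ∑ i ∈ S, Y (0, i + 1) ω)) ∂P =
      ENNReal.ofReal (((1 - z) / (1 - z - s)) ^ #S) :=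
  sum_mgf (fun j => h.meas _) (h.indep.precomp (g := fun i : ℕ => ((0, i + 1) : ℕ × ℕ))
    (fun a b hab => by simpa using hab)) (by linarith) hs S (fun j _ => h.law_v j)

/-- exponential moments of bulk passage times in the stationary field -/
theorem bulk_emom [IsProbabilityMeasure P] (h : IsStatField P Y z) {Ω' : Type*}
    [MeasurableSpace Ω'] {P' : Measure Ω'} [IsProbabilityMeasure P'] {X : ℕ × ℕ → Ω' → ℝ}
    (hX : IsExpField P' X) (θ : ℝ) (i j m n : ℕ) :
    emom P Y θ (i + 1, j + 1) (i + 1 + m, j + 1 + n) = emom P' X θ (0, 0) (m, n) := by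
  have h1 := h.bulk.lp_law hX (i, j) (0, 0) m n
  have e1 : (fun ω => lp (fun w => Y (w + (1, 1)) ω) (i, j) (i + m, j + n)) =
      fun ω => lp (fun w => Y w ω) (i + 1, j + 1) (i + 1 + m, j + 1 + n) := by
    funext ω
    rw [← lp_shift (fun w => Y w ω) (i, j) (i + m, j + n) (1, 1)]
    congr 1
    ext <;> simp <;> ring
  simp only [zero_add] at h1
  rw [e1] at h1
  unfold emom
  have f1 : ∫⁻ ω, ENNReal.ofReal (Real.exp (θ * lp (fun w => Y w ω) (i + 1, j + 1)
      (i + 1 + m, j + 1 + n))) ∂P = ∫⁻ x, ENNReal.ofReal (Real.exp (θ * x))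
        ∂(P.map (fun ω => lp (fun w => Y w ω) (i + 1, j + 1) (i + 1 + m, j + 1 + n))) := by
    rw [lintegral_map (by fun_prop) (IsExpField.measurable_lp h.meas _ _)]
  rw [f1, h1, lintegral_map (by fun_prop) (IsExpField.measurable_lp hX.meas _ _)]

/-- exponential moments for the increments along a column -/
theorem col_incr_mgf [IsProbabilityMeasure P] (h : IsStatField P Y z) (hz : 0 < z) (hz1 : z < 1)
    {s : ℝ} (hs : s < 1 - z) (m n : ℕ) :
    ∫⁻ ω, ENNReal.ofReal (Real.exp (s * (GG (fun w => Y w ω) m n - GG (fun w => Y w ω) m 0))) ∂P =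
      ENNReal.ofReal (((1 - z) / (1 - z - s)) ^ n) := by
  obtain ⟨h1, h2⟩ := burke hz hz1 h m
  have hm : ∀ j : ℕ, Measurable
      (fun ω => GG (fun w => Y w ω) m (j + 1) - GG (fun w => Y w ω) m j) := by
    intro j
    unfold GG
    have a1 := IsExpField.measurable_lp h.meas (0, 0) (m, j + 1)
    have a2 := IsExpField.measurable_lp h.meas (0, 0) (m, j)
    have a3 := h.meas (0, 0)
    fun_prop
  have h3 := sum_mgf hm h1 (by linarith) hs (range n) (fun j _ => h2 j)
  rw [Finset.card_range] at h3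
  rw [← h3]
  refine lintegral_congr fun ω => ?_
  congr 3
  rw [Finset.sum_range_sub (fun j => GG (fun w => Y w ω) m j)]

end Helper97.LPP
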